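import Pool.Agent.Veblen.Roots

set_option autoImplicit false

namespace Pool.Agent.Veblen

open Finset

section

variable {α : Type} [LinearOrder α]

theorem isLeast_iff {S : Finset α} {r v : α} (hr : IsLeast (S : Set α) r) :
    IsLeast (S : Set α) v ↔ v = r :=
  ⟨fun h => h.unique hr, fun h => h ▸ hr⟩

/-- Transport of `arbs` to `Fin n`. -/
theorem arbs_transport {n : ℕ} [NeZero n] (S : Finset α) (e : Fin n ≃ {v // v ∈ S})
    (he : IsLeast (S : Set α) ((e 0 : {v // v ∈ S}) : α)) (a : α → α → ℕ)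
    (P : (Fin n → Fin n) → Prop) [DecidablePred P]
    (hP : ∀ g : Fin n → Fin n, (g 0 = 0 ∧ ∀ v, ∃ k : ℕ, g^[k] v = 0) ↔ P g) :
    arbs S a = ∑ g ∈ univ.filter P, ∏ v ∈ univ.filter (fun v : Fin n => v ≠ 0),
      a (e v) (e (g v)) := by
  classical
  have hleast : ∀ v : {v // v ∈ S}, IsLeast (S : Set α) (v : α) ↔ v = e 0 := by
    intro v
    rw [isLeast_iff he]
    exact ⟨fun h => Subtype.ext h, fun h => by rw [h]⟩
  have hiter : ∀ (g : {v // v ∈ S} → {v // v ∈ S}) (k : ℕ) (v : Fin n),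
      (e.symm ∘ g ∘ e)^[k] v = e.symm (g^[k] (e v)) := by
    intro g k
    induction k with
    | zero => intro v; simp
    | succ k ih =>
      intro v
      rw [Function.iterate_succ_apply, Function.iterate_succ_apply, ih]
      simp
  unfold arbs
  apply Finset.sum_bij' (fun g _ => e.symm ∘ g ∘ e) (fun g _ => e ∘ g ∘ e.symm)
  · intro g hg
    rw [mem_filter] at hg ⊢
    refine ⟨mem_univ _, (hP _).1 ⟨?_, ?_⟩⟩
    · have := hg.2.1 (e 0) he
      simp [this]
    · intro v
      obtain ⟨k, hk⟩ := hg.2.2 (e v)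
      refine ⟨k, ?_⟩
      rw [hiter, (hleast _).1 hk]
      simp
  · intro g hg
    rw [mem_filter] at hg ⊢
    obtain ⟨h1, h2⟩ := (hP _).2 hg.2
    have hit : ∀ (k : ℕ) (v : {v // v ∈ S}), (e ∘ g ∘ e.symm)^[k] v = e (g^[k] (e.symm v)) := by
      intro k
      induction k with
      | zero => intro v; simp
      | succ k ih =>
        intro v
        rw [Function.iterate_succ_apply, Function.iterate_succ_apply, ih]
        simp
    refine ⟨mem_univ _, ?_, ?_⟩
    · intro v hv
      rw [(hleast v).1 hv]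
      simp [h1]
    · intro v
      obtain ⟨k, hk⟩ := h2 (e.symm v)
      refine ⟨k, ?_⟩
      rw [hleast, hit, hk]
  · intro g _
    funext v
    simp
  · intro g _
    funext v
    simp
  · intro g _
    apply Finset.prod_bij' (fun v _ => e.symm v) (fun v _ => e v)
    · intro v hv
      rw [mem_filter] at hv ⊢
      refine ⟨mem_univ _, ?_⟩
      intro h
      apply hv.2
      rw [hleast, ← h]
      simp
    · intro v hv
      rw [mem_filter] at hv ⊢
      refine ⟨mem_univ _, ?_⟩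
      rw [hleast]
      intro h
      exact hv.2 (e.injective h)
    · intro v _; simp
    · intro v _; simp
    · intro v _; simp

theorem reach4 (g : Fin 4 → Fin 4) :
    (g 0 = 0 ∧ ∀ v, ∃ k : ℕ, g^[k] v = 0) ↔ (g 0 = 0 ∧ ∀ v, g^[3] v = 0) := by
  have key : ∀ g : Fin 4 → Fin 4, g 0 = 0 → ∀ v, g^[4] v = 0 → g^[3] v = 0 := by
    decide +kernel
  refine and_congr_right fun h0 => forall_congr' fun v => ⟨?_, fun h => ⟨3, h⟩⟩
  rintro ⟨k, hk⟩
  have hfix : ∀ l : ℕ, g^[l] 0 = 0 := fun l => Function.iterate_fixed h0 l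
  have hup : g^[3 + k] v = 0 := by
    rw [Function.iterate_add_apply, hk]; exact hfix 3
  clear hk
  induction k with
  | zero => exact hup
  | succ k ih =>
    apply ih
    have h4 : g^[4] (g^[k] v) = 0 := by
      rw [← Function.iterate_add_apply]
      rw [show 4 + k = 3 + (k + 1) by ring]
      exact hup
    rw [Function.iterate_add_apply]
    exact key g h0 _ h4

theorem reach3 (g : Fin 3 → Fin 3) :
    (g 0 = 0 ∧ ∀ v, ∃ k : ℕ, g^[k] v = 0) ↔ (g 0 = 0 ∧ ∀ v, g^[2] v = 0) := by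
  have key : ∀ g : Fin 3 → Fin 3, g 0 = 0 → ∀ v, g^[3] v = 0 → g^[2] v = 0 := by
    decide +kernel
  refine and_congr_right fun h0 => forall_congr' fun v => ⟨?_, fun h => ⟨2, h⟩⟩
  rintro ⟨k, hk⟩
  have hfix : ∀ l : ℕ, g^[l] 0 = 0 := fun l => Function.iterate_fixed h0 l
  have hup : g^[2 + k] v = 0 := by
    rw [Function.iterate_add_apply, hk]; exact hfix 2
  clear hk
  induction k with
  | zero => exact hup
  | succ k ih =>
    apply ih
    have h4 : g^[3] (g^[k] v) = 0 := by
      rw [← Function.iterate_add_apply]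
      rw [show 3 + k = 2 + (k + 1) by ring]
      exact hup
    rw [Function.iterate_add_apply]
    exact key g h0 _ h4

theorem trees3 : (univ.filter (fun g : Fin 3 → Fin 3 => g 0 = 0 ∧ ∀ v, g^[2] v = 0)) =
    {![0, 0, 0], ![0, 0, 1], ![0, 2, 0]} := by
  decide +kernel

theorem trees4 : (univ.filter (fun g : Fin 4 → Fin 4 => g 0 = 0 ∧ ∀ v, g^[3] v = 0)) =
    {![0, 0, 0, 0], ![0, 0, 0, 1], ![0, 0, 0, 2], ![0, 0, 1, 0], ![0, 0, 1, 1], ![0, 0, 1, 2],
     ![0, 0, 3, 0], ![0, 0, 3, 1], ![0, 2, 0, 0], ![0, 2, 0, 1], ![0, 2, 0, 2],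
     ![0, 2, 3, 0], ![0, 3, 0, 0], ![0, 3, 0, 2], ![0, 3, 1, 0], ![0, 3, 3, 0]} := by
  decide +kernel

/-- The sum over the three arborescences. -/
theorem arbs3 (S : Finset α) (e : Fin 3 ≃ {v // v ∈ S})
    (he : IsLeast (S : Set α) ((e 0 : {v // v ∈ S}) : α)) (a : α → α → ℕ) :
    arbs S a = a (e 1) (e 0) * a (e 2) (e 0) + a (e 1) (e 0) * a (e 2) (e 1) +
      a (e 1) (e 2) * a (e 2) (e 0) := by
  rw [arbs_transport S e he a _ reach3, trees3]
  have h : (univ.filter (fun v : Fin 3 => v ≠ 0)) = {1, 2} := by decide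
  rw [h, Finset.sum_insert (by decide), Finset.sum_insert (by decide), Finset.sum_singleton]
  simp only [Finset.prod_pair (show (1 : Fin 3) ≠ 2 by decide)]
  simp
  ring

/-- The sum over the sixteen arborescences. -/
theorem arbs4 (S : Finset α) (e : Fin 4 ≃ {v // v ∈ S})
    (he : IsLeast (S : Set α) ((e 0 : {v // v ∈ S}) : α)) (a : α → α → ℕ) :
    arbs S a = a (e 1) (e 0) * a (e 2) (e 0) * a (e 3) (e 0) +
      a (e 1) (e 0) * a (e 2) (e 0) * a (e 3) (e 1) +
      a (e 1) (e 0) * a (e 2) (e 0) * a (e 3) (e 2) +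
      a (e 1) (e 0) * a (e 2) (e 1) * a (e 3) (e 0) +
      a (e 1) (e 0) * a (e 2) (e 1) * a (e 3) (e 1) +
      a (e 1) (e 0) * a (e 2) (e 1) * a (e 3) (e 2) +
      a (e 1) (e 0) * a (e 2) (e 3) * a (e 3) (e 0) +
      a (e 1) (e 0) * a (e 2) (e 3) * a (e 3) (e 1) +
      a (e 1) (e 2) * a (e 2) (e 0) * a (e 3) (e 0) +
      a (e 1) (e 2) * a (e 2) (e 0) * a (e 3) (e 1) +
      a (e 1) (e 2) * a (e 2) (e 0) * a (e 3) (e 2) +
      a (e 1) (e 2) * a (e 2) (e 3) * a (e 3) (e 0) +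
      a (e 1) (e 3) * a (e 2) (e 0) * a (e 3) (e 0) +
      a (e 1) (e 3) * a (e 2) (e 0) * a (e 3) (e 2) +
      a (e 1) (e 3) * a (e 2) (e 1) * a (e 3) (e 0) +
      a (e 1) (e 3) * a (e 2) (e 3) * a (e 3) (e 0) := by
  rw [arbs_transport S e he a _ reach4, trees4]
  have h : (univ.filter (fun v : Fin 4 => v ≠ 0)) = {1, 2, 3} := by decide
  have h3 : ∀ F : Fin 4 → ℕ, ∏ v ∈ ({1, 2, 3} : Finset (Fin 4)), F v = F 1 * F 2 * F 3 := by
    intro F
    rw [Finset.prod_insert (by decide), Finset.prod_pair (by decide)]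
    ring
  rw [h]
  simp only [h3]
  rw [Finset.sum_insert (by decide), Finset.sum_insert (by decide), Finset.sum_insert (by decide), Finset.sum_insert (by decide), Finset.sum_insert (by decide), Finset.sum_insert (by decide), Finset.sum_insert (by decide), Finset.sum_insert (by decide), Finset.sum_insert (by decide), Finset.sum_insert (by decide), Finset.sum_insert (by decide), Finset.sum_insert (by decide), Finset.sum_insert (by decide), Finset.sum_insert (by decide), Finset.sum_insert (by decide),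
    Finset.sum_singleton]
  simp
  ring

end

end Pool.Agent.Veblen
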