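import Pool.Agent.Veblen.Values

set_option autoImplicit false

namespace Pool.Agent.Veblen

open Finset

section

variable {α : Type} [DecidableEq α]

theorem dedup_one {n : ℕ} (hn : n ≠ 0) (e : Finset α) :
    Multiset.dedup (Multiset.replicate n e) = ({e} : MHG α) := by
  rw [Multiset.Nodup.ext (Multiset.nodup_dedup _) (Multiset.nodup_singleton e)]
  intro a
  rw [Multiset.mem_dedup, Multiset.mem_replicate, Multiset.mem_singleton]
  exact ⟨fun h => h.2, fun h => ⟨hn, h⟩⟩

theorem dedup_two {n m : ℕ} (hn : n ≠ 0) (hm : m ≠ 0) {e e' : Finset α} (h : e ≠ e') :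
    Multiset.dedup (Multiset.replicate n e + Multiset.replicate m e') = ({e, e'} : MHG α) := by
  have h2 : ({e, e'} : MHG α).Nodup := by
    rw [Multiset.insert_eq_cons, Multiset.nodup_cons]
    exact ⟨by simpa using h, Multiset.nodup_singleton e'⟩
  rw [Multiset.Nodup.ext (Multiset.nodup_dedup _) h2]
  intro a
  rw [Multiset.mem_dedup, Multiset.mem_add, Multiset.mem_replicate, Multiset.mem_replicate]
  simp [hn, hm]

theorem verts_singleton (e : Finset α) : verts ({e} : MHG α) = e := by
  ext v; simp [mem_verts]

theorem verts_pair (e e' : Finset α) : verts ({e, e'} : MHG α) = e ∪ e' := by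
  ext v; simp [mem_verts]

theorem autCard_one [Fintype α] (e : Finset α) :
    autCard ({e} : MHG α) = e.card.factorial := by
  classical
  unfold autCard
  have h1 : Fintype.card (Equiv.Perm {v // v ∈ e}) = e.card.factorial := by
    rw [Fintype.card_perm, Fintype.card_coe]
  rw [← h1]
  symm
  apply Fintype.card_congr
  refine (Equiv.Perm.subtypeEquivSubtypePerm (fun v => v ∈ e)).trans ?_
  apply Equiv.subtypeEquivRight
  intro σ
  rw [verts_singleton, Multiset.map_singleton]
  constructor
  · intro h
    refine ⟨h, ?_⟩
    congr 1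
    have hsub : e.image σ ⊆ e := by
      intro v hv
      obtain ⟨u, hu, rfl⟩ := mem_image.1 hv
      by_contra hcon
      have h2 := h _ hcon
      have h3 := σ.injective h2
      rw [h3] at hcon
      exact hcon hu
    exact Finset.eq_of_subset_of_card_le hsub
      (by rw [Finset.card_image_of_injective _ σ.injective])
  · intro h
    exact h.1

theorem image_triple (σ : Equiv.Perm α) (x y z : α) :
    ({x, y, z} : Finset α).image σ = {σ x, σ y, σ z} := by
  rw [Finset.image_insert, Finset.image_insert, Finset.image_singleton]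

theorem autCard_two [Fintype α] {x x' y z : α} (h1 : x ≠ x') (h2 : x ≠ y) (h3 : x ≠ z)
    (h4 : x' ≠ y) (h5 : x' ≠ z) (h6 : y ≠ z) :
    autCard ({{x, y, z}, {x', y, z}} : MHG α) = 4 := by
  classical
  unfold autCard
  rw [Fintype.card_subtype]
  set e₁ : Finset α := {x, y, z} with he₁
  set e₂ : Finset α := {x', y, z} with he₂
  have hx1 : x ∈ e₁ := by simp [he₁]
  have hx2 : x ∉ e₂ := by simp [he₂, h1, h2, h3]
  have hx'1 : x' ∉ e₁ := by simp [he₁, h1.symm, h4, h5]
  have hx'2 : x' ∈ e₂ := by simp [he₂]
  have hy1 : y ∈ e₁ := by simp [he₁]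
  have hy2 : y ∈ e₂ := by simp [he₂]
  have hz1 : z ∈ e₁ := by simp [he₁]
  have hz2 : z ∈ e₂ := by simp [he₂]
  have h12 : e₁ ≠ e₂ := fun h => hx2 (h ▸ hx1)
  have hV : ∀ v, v ∈ verts ({e₁, e₂} : MHG α) ↔ v = x ∨ v = x' ∨ v = y ∨ v = z := by
    intro v
    rw [verts_pair, he₁, he₂]
    simp only [mem_union, mem_insert, mem_singleton]
    tauto
  have hmap : ∀ σ : Equiv.Perm α, Multiset.map (Finset.image σ) ({e₁, e₂} : MHG α) =
      {e₁.image σ, e₂.image σ} := by
    intro σ
    rw [Multiset.insert_eq_cons, Multiset.map_cons, Multiset.map_singleton,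
      Multiset.insert_eq_cons]
  -- only in e₁ / e₂
  have honly1 : ∀ v, v ∈ e₁ → v ∉ e₂ → v = x := by
    intro v hv hv'
    rw [he₁] at hv
    rw [he₂] at hv'
    simp only [mem_insert, mem_singleton, not_or] at hv hv'
    tauto
  have honly2 : ∀ v, v ∈ e₂ → v ∉ e₁ → v = x' := by
    intro v hv hv'
    rw [he₂] at hv
    rw [he₁] at hv'
    simp only [mem_insert, mem_singleton, not_or] at hv hv'
    tauto
  have hboth : ∀ v, v ∈ e₁ → v ∈ e₂ → v = y ∨ v = z := by
    intro v hv hv'
    rw [he₁] at hv
    rw [he₂] at hv'
    simp only [mem_insert, mem_singleton] at hv hv'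
    rcases hv with h | h
    · rcases hv' with h' | h'
      · exact absurd (h.symm.trans h') h1
      · exact h'
    · exact h
  have hext : ∀ σ τ : Equiv.Perm α, (∀ v, v ∉ verts ({e₁, e₂} : MHG α) → σ v = v) →
      (∀ v, v ∉ verts ({e₁, e₂} : MHG α) → τ v = v) → σ x = τ x → σ x' = τ x' → σ y = τ y →
      σ z = τ z → σ = τ := by
    intro σ τ hσ hτ g1 g2 g3 g4
    ext v
    by_cases hv : v ∈ verts ({e₁, e₂} : MHG α)
    · rw [hV] at hv
      rcases hv with rfl | rfl | rfl | rfl
      · exact g1
      · exact g2
      · exact g3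
      · exact g4
    · rw [hσ v hv, hτ v hv]
  have hlist : (univ.filter (fun σ : Equiv.Perm α =>
      (∀ v, v ∉ verts ({e₁, e₂} : MHG α) → σ v = v) ∧
        Multiset.map (Finset.image σ) ({e₁, e₂} : MHG α) = {e₁, e₂})) =
      {1, Equiv.swap x x', Equiv.swap y z, Equiv.swap x x' * Equiv.swap y z} := by
    have hfix1 : ∀ v, v ∉ verts ({e₁, e₂} : MHG α) → Equiv.swap x x' v = v := by
      intro v hv
      rw [hV, not_or, not_or, not_or] at hv
      exact Equiv.swap_apply_of_ne_of_ne hv.1 hv.2.1
    have hfix2 : ∀ v, v ∉ verts ({e₁, e₂} : MHG α) → Equiv.swap y z v = v := by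
      intro v hv
      rw [hV, not_or, not_or, not_or] at hv
      exact Equiv.swap_apply_of_ne_of_ne hv.2.2.1 hv.2.2.2
    have hfix3 : ∀ v, v ∉ verts ({e₁, e₂} : MHG α) →
        (Equiv.swap x x' * Equiv.swap y z) v = v := by
      intro v hv
      rw [Equiv.Perm.mul_apply, hfix2 v hv, hfix1 v hv]
    have sx : Equiv.swap x x' x = x' := Equiv.swap_apply_left _ _
    have sx' : Equiv.swap x x' x' = x := Equiv.swap_apply_right _ _
    have sy : Equiv.swap x x' y = y := Equiv.swap_apply_of_ne_of_ne h2.symm h4.symm
    have sz : Equiv.swap x x' z = z := Equiv.swap_apply_of_ne_of_ne h3.symm h5.symm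
    have tx : Equiv.swap y z x = x := Equiv.swap_apply_of_ne_of_ne h2 h3
    have tx' : Equiv.swap y z x' = x' := Equiv.swap_apply_of_ne_of_ne h4 h5
    have ty : Equiv.swap y z y = z := Equiv.swap_apply_left _ _
    have tz : Equiv.swap y z z = y := Equiv.swap_apply_right _ _
    ext σ
    simp only [mem_filter, mem_univ, true_and, mem_insert, mem_singleton]
    constructor
    · rintro ⟨g1, g2⟩
      rw [hmap] at g2
      have hinj : ∀ (e : Finset α) (v : α), σ v ∈ e.image σ ↔ v ∈ e := by
        intro e v
        rw [mem_image]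
        exact ⟨fun ⟨u, hu, huv⟩ => σ.injective huv ▸ hu, fun h => ⟨v, h, rfl⟩⟩
      have hcases : (e₁.image σ = e₁ ∧ e₂.image σ = e₂) ∨
          (e₁.image σ = e₂ ∧ e₂.image σ = e₁) := by
        have m1 : e₁.image σ ∈ ({e₁, e₂} : MHG α) := by rw [← g2]; simp
        have m2 : e₂.image σ ∈ ({e₁, e₂} : MHG α) := by rw [← g2]; simp
        have hne : e₁.image σ ≠ e₂.image σ := fun h => h12 (image_perm_injective σ h)
        simp only [Multiset.insert_eq_cons, Multiset.mem_cons, Multiset.mem_singleton] at m1 m2
        rcases m1 with m1 | m1 <;> rcases m2 with m2 | m2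
        · exact absurd (m1.trans m2.symm) hne
        · exact Or.inl ⟨m1, m2⟩
        · exact Or.inr ⟨m1, m2⟩
        · exact absurd (m1.trans m2.symm) hne
      rcases hcases with ⟨k1, k2⟩ | ⟨k1, k2⟩
      · have hx : σ x = x := by
          apply honly1
          · rw [← k1, hinj]; exact hx1
          · rw [← k2, hinj]; exact hx2
        have hx' : σ x' = x' := by
          apply honly2
          · rw [← k2, hinj]; exact hx'2
          · rw [← k1, hinj]; exact hx'1
        have hy : σ y = y ∨ σ y = z := by
          apply hboth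
          · rw [← k1, hinj]; exact hy1
          · rw [← k2, hinj]; exact hy2
        have hz : σ z = y ∨ σ z = z := by
          apply hboth
          · rw [← k1, hinj]; exact hz1
          · rw [← k2, hinj]; exact hz2
        rcases hy with hy | hy
        · have hz' : σ z = z := by
            rcases hz with hz | hz
            · exact absurd (σ.injective (hy.trans hz.symm)) h6
            · exact hz
          left
          exact hext σ 1 g1 (fun _ _ => rfl) hx hx' hy hz'
        · have hz' : σ z = y := by
            rcases hz with hz | hz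
            · exact hz
            · exact absurd (σ.injective (hy.trans hz.symm)) h6
          right; right; left
          exact hext σ _ g1 hfix2 (hx.trans tx.symm) (hx'.trans tx'.symm) (hy.trans ty.symm)
            (hz'.trans tz.symm)
      · have hx : σ x = x' := by
          apply honly2
          · rw [← k1, hinj]; exact hx1
          · rw [← k2, hinj]; exact hx2
        have hx' : σ x' = x := by
          apply honly1
          · rw [← k2, hinj]; exact hx'2
          · rw [← k1, hinj]; exact hx'1
        have hy : σ y = y ∨ σ y = z := by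
          apply hboth
          · rw [← k2, hinj]; exact hy2
          · rw [← k1, hinj]; exact hy1
        have hz : σ z = y ∨ σ z = z := by
          apply hboth
          · rw [← k2, hinj]; exact hz2
          · rw [← k1, hinj]; exact hz1
        rcases hy with hy | hy
        · have hz' : σ z = z := by
            rcases hz with hz | hz
            · exact absurd (σ.injective (hy.trans hz.symm)) h6
            · exact hz
          right; left
          exact hext σ _ g1 hfix1 (hx.trans sx.symm) (hx'.trans sx'.symm) (hy.trans sy.symm)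
            (hz'.trans sz.symm)
        · have hz' : σ z = y := by
            rcases hz with hz | hz
            · exact hz
            · exact absurd (σ.injective (hy.trans hz.symm)) h6
          right; right; right
          apply hext σ _ g1 hfix3
          · rw [Equiv.Perm.mul_apply, tx, sx, hx]
          · rw [Equiv.Perm.mul_apply, tx', sx', hx']
          · rw [Equiv.Perm.mul_apply, ty, sz, hy]
          · rw [Equiv.Perm.mul_apply, tz, sy, hz']
    · rintro (rfl | rfl | rfl | rfl)
      · refine ⟨fun _ _ => rfl, ?_⟩
        exact relabel_one _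
      · refine ⟨hfix1, ?_⟩
        rw [hmap, he₁, he₂, image_triple, image_triple, sx, sx', sy, sz]
        exact Multiset.pair_comm _ _
      · refine ⟨hfix2, ?_⟩
        rw [hmap, he₁, he₂, image_triple, image_triple, tx, tx', ty, tz,
          Finset.pair_comm z y]
      · refine ⟨hfix3, ?_⟩
        rw [hmap, he₁, he₂, image_triple, image_triple]
        simp only [Equiv.Perm.mul_apply]
        rw [tx, tx', ty, tz, sx, sx', sy, sz, Finset.pair_comm z y]
        exact Multiset.pair_comm _ _
  rw [hlist]
  have sx : Equiv.swap x x' x = x' := Equiv.swap_apply_left _ _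
  have sy : Equiv.swap x x' y = y := Equiv.swap_apply_of_ne_of_ne h2.symm h4.symm
  have sz : Equiv.swap x x' z = z := Equiv.swap_apply_of_ne_of_ne h3.symm h5.symm
  have tx : Equiv.swap y z x = x := Equiv.swap_apply_of_ne_of_ne h2 h3
  have ty : Equiv.swap y z y = z := Equiv.swap_apply_left _ _
  have n12 : (1 : Equiv.Perm α) ≠ Equiv.swap x x' := by
    intro h
    have := congrArg (fun σ : Equiv.Perm α => σ x) h
    simp only [Equiv.Perm.one_apply] at this
    rw [sx] at this
    exact h1 this
  have n13 : (1 : Equiv.Perm α) ≠ Equiv.swap y z := by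
    intro h
    have := congrArg (fun σ : Equiv.Perm α => σ y) h
    simp only [Equiv.Perm.one_apply] at this
    rw [ty] at this
    exact h6 this
  have n14 : (1 : Equiv.Perm α) ≠ Equiv.swap x x' * Equiv.swap y z := by
    intro h
    have := congrArg (fun σ : Equiv.Perm α => σ y) h
    simp only [Equiv.Perm.one_apply, Equiv.Perm.mul_apply] at this
    rw [ty, sz] at this
    exact h6 this
  have n23 : Equiv.swap x x' ≠ Equiv.swap y z := by
    intro h
    have := congrArg (fun σ : Equiv.Perm α => σ x) h
    rw [sx, tx] at this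
    exact h1 this.symm
  have n24 : Equiv.swap x x' ≠ Equiv.swap x x' * Equiv.swap y z := by
    intro h
    have := congrArg (fun σ : Equiv.Perm α => σ y) h
    simp only [Equiv.Perm.mul_apply] at this
    rw [sy, ty, sz] at this
    exact h6 this
  have n34 : Equiv.swap y z ≠ Equiv.swap x x' * Equiv.swap y z := by
    intro h
    have := congrArg (fun σ : Equiv.Perm α => σ x) h
    simp only [Equiv.Perm.mul_apply] at this
    rw [tx, sx] at this
    exact h1 this
  rw [Finset.card_insert_of_notMem, Finset.card_insert_of_notMem, Finset.card_pair n34]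
  · simp [n23, n24]
  · simp [n12, n13, n14]

end

end Pool.Agent.Veblen
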