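import Pool.Agent.Veblen.Weights

set_option autoImplicit false

namespace Pool.Agent.Veblen

open Finset

section

variable {N : ℕ}

theorem conn_of_meet {H : MHG (Fin N)} (h0 : H ≠ 0)
    (hm : ∀ e ∈ H, ∀ e' ∈ H, ∃ v, v ∈ e ∧ v ∈ e') : Conn H := by
  refine ⟨h0, ?_⟩
  intro H₁ H₂ h12 hd
  by_contra hcon
  push Not at hcon
  obtain ⟨e, he⟩ := Multiset.exists_mem_of_ne_zero hcon.1
  obtain ⟨e', he'⟩ := Multiset.exists_mem_of_ne_zero hcon.2
  obtain ⟨v, hv, hv'⟩ := hm e (by rw [h12]; exact Multiset.mem_add.2 (Or.inl he)) e'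
    (by rw [h12]; exact Multiset.mem_add.2 (Or.inr he'))
  exact Finset.disjoint_left.1 hd (mem_verts.2 ⟨e, he, hv⟩) (mem_verts.2 ⟨e', he', hv'⟩)

theorem verts_one {m : ℕ} (hm : 1 ≤ m) (e : Finset (Fin N)) :
    verts (Multiset.replicate (3 * m) e) = e := verts_replicate (by omega) e

theorem verts_two {i j : ℕ} (hi : 1 ≤ i) (hj : 1 ≤ j) (e e' : Finset (Fin N)) :
    verts (Multiset.replicate (3 * i) e + Multiset.replicate (3 * j) e') = e ∪ e' := by
  rw [verts_add, verts_replicate (by omega), verts_replicate (by omega)]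

theorem union_triples (x x' y z : Fin N) :
    ({x, y, z} : Finset (Fin N)) ∪ {x', y, z} = {x, x', y, z} := by
  ext v
  simp only [mem_union, mem_insert, mem_singleton]
  tauto

theorem card_four {x x' y z : Fin N} (h1 : x ≠ x') (h2 : x ≠ y) (h3 : x ≠ z) (h4 : x' ≠ y)
    (h5 : x' ≠ z) (h6 : y ≠ z) : ({x, x', y, z} : Finset (Fin N)).card = 4 := by
  rw [Finset.card_insert_of_notMem (by simp [h1, h2, h3]),
    Finset.card_insert_of_notMem (by simp [h4, h5]), Finset.card_pair h6]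

theorem beta_three {𝓗 : KGraph 3} {c₁ c₂ : ℕ} (h𝓗 : Good 𝓗 c₁ c₂) (B : Finset (Fin N))
    (hB : B.card = 3) {m : ℕ} (hm : 1 ≤ m) :
    ∑ G ∈ CS 3 B (3 * m), wt 𝓗 G = -36 * c₁ / m := by
  classical
  rw [Finset.sum_eq_single (Multiset.replicate (3 * m) B)]
  · exact wt_one h𝓗 B hB hm
  · intro G hG hne
    by_contra hw
    obtain ⟨g1, g2, g3, g4⟩ := mem_CS.1 hG
    rcases type_of_wt h𝓗 g3 g1.1 hw with ⟨e, m', he, hm', rfl⟩ |
      ⟨x, x', y, z, i, j, h1, h2, h3, h4, h5, h6, hi, hj, rfl⟩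
    · rw [verts_one hm'] at g4
      rw [Multiset.card_replicate] at g2
      rw [g4, g2] at hne
      exact hne rfl
    · rw [verts_two hi hj, union_triples] at g4
      rw [← g4, card_four h1 h2 h3 h4 h5 h6] at hB
      omega
  · intro h
    exfalso
    apply h
    rw [mem_CS]
    refine ⟨conn_of_meet ?_ ?_, Multiset.card_replicate _ _, isVeblen_one hB, verts_one hm B⟩
    · intro h0
      have := congrArg Multiset.card h0
      rw [Multiset.card_replicate, Multiset.card_zero] at this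
      omega
    · intro e he e' he'
      rw [Multiset.eq_of_mem_replicate he, Multiset.eq_of_mem_replicate he']
      obtain ⟨v, hv⟩ : B.Nonempty := by rw [← Finset.card_pos, hB]; norm_num
      exact ⟨v, hv, hv⟩

theorem beta_other {𝓗 : KGraph 3} {c₁ c₂ : ℕ} (h𝓗 : Good 𝓗 c₁ c₂) (B : Finset (Fin N))
    (hB : B.card ≠ 3) (hB' : B.card ≠ 4) (j : ℕ) :
    ∑ G ∈ CS 3 B j, wt 𝓗 G = 0 := by
  apply Finset.sum_eq_zero
  intro G hG
  by_contra hw
  obtain ⟨g1, g2, g3, g4⟩ := mem_CS.1 hG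
  rcases type_of_wt h𝓗 g3 g1.1 hw with ⟨e, m', he, hm', rfl⟩ |
    ⟨x, x', y, z, i, j, h1, h2, h3, h4, h5, h6, hi, hj, rfl⟩
  · rw [verts_one hm'] at g4
    rw [← g4] at hB
    exact hB he
  · rw [verts_two hi hj, union_triples] at g4
    rw [← g4, card_four h1 h2 h3 h4 h5 h6] at hB'
    exact hB' rfl

theorem beta_zero {𝓗 : KGraph 3} {c₁ c₂ : ℕ} (h𝓗 : Good 𝓗 c₁ c₂) (B : Finset (Fin N))
    (j : ℕ) (hj : ∀ m, 1 ≤ m → j ≠ 3 * m) :
    ∑ G ∈ CS 3 B j, wt 𝓗 G = 0 := by
  apply Finset.sum_eq_zero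
  intro G hG
  by_contra hw
  obtain ⟨g1, g2, g3, g4⟩ := mem_CS.1 hG
  rcases type_of_wt h𝓗 g3 g1.1 hw with ⟨e, m', he, hm', rfl⟩ |
    ⟨x, x', y, z, i, i', h1, h2, h3, h4, h5, h6, hi, hi', rfl⟩
  · rw [Multiset.card_replicate] at g2
    exact hj m' hm' g2.symm
  · rw [Multiset.card_add, Multiset.card_replicate, Multiset.card_replicate] at g2
    exact hj (i + i') (by omega) (by omega)

theorem exists_yz (B : Finset (Fin N)) (hB : B.card = 4) {x x' : Fin N} (hx : x ∈ B)
    (hx' : x' ∈ B) (hxx' : x ≠ x') : ∃ y z, x ≠ y ∧ x ≠ z ∧ x' ≠ y ∧ x' ≠ z ∧ y ≠ z ∧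
      B.erase x' = {x, y, z} ∧ B.erase x = {x', y, z} ∧ B = {x, x', y, z} := by
  have h1 : ((B.erase x').erase x).card = 2 := by
    rw [Finset.card_erase_of_mem (mem_erase.2 ⟨hxx', hx⟩), Finset.card_erase_of_mem hx', hB]
  obtain ⟨y, z, hyz, hE⟩ := Finset.card_eq_two.1 h1
  have hmem : ∀ v, (v ≠ x ∧ v ≠ x' ∧ v ∈ B) ↔ (v = y ∨ v = z) := by
    intro v
    have : v ∈ (B.erase x').erase x ↔ v ∈ ({y, z} : Finset (Fin N)) := by rw [hE]
    simpa using this
  have hy := (hmem y).2 (Or.inl rfl)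
  have hz := (hmem z).2 (Or.inr rfl)
  refine ⟨y, z, hy.1.symm, hz.1.symm, hy.2.1.symm, hz.2.1.symm, hyz, ?_, ?_, ?_⟩
  · ext v
    simp only [mem_erase, mem_insert, mem_singleton]
    have := hmem v
    constructor
    · rintro ⟨g1, g2⟩
      by_cases hv : v = x
      · exact Or.inl hv
      · exact Or.inr (this.1 ⟨hv, g1, g2⟩)
    · rintro (rfl | h)
      · exact ⟨hxx', hx⟩
      · exact (this.2 h).2
  · ext v
    simp only [mem_erase, mem_insert, mem_singleton]
    have := hmem v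
    constructor
    · rintro ⟨g1, g2⟩
      by_cases hv : v = x'
      · exact Or.inl hv
      · exact Or.inr (this.1 ⟨g1, hv, g2⟩)
    · rintro (rfl | h)
      · exact ⟨hxx'.symm, hx'⟩
      · exact ⟨(this.2 h).1, (this.2 h).2.2⟩
  · ext v
    simp only [mem_insert, mem_singleton]
    have := hmem v
    constructor
    · intro g
      by_cases hv : v = x
      · exact Or.inl hv
      · by_cases hv' : v = x'
        · exact Or.inr (Or.inl hv')
        · exact Or.inr (Or.inr (this.1 ⟨hv, hv', g⟩))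
    · rintro (rfl | rfl | h)
      · exact hx
      · exact hx'
      · exact (this.2 h).2.2

theorem card_pairs (B : Finset (Fin N)) (hB : B.card = 4) :
    ((B ×ˢ B).filter (fun p => p.1 < p.2)).card = 6 := by
  have h1 : B.offDiag.card = 12 := by rw [Finset.offDiag_card, hB]
  have h2 : B.offDiag = ((B ×ˢ B).filter (fun p => p.1 < p.2)) ∪
      ((B ×ˢ B).filter (fun p => p.2 < p.1)) := by
    ext ⟨a, b⟩
    simp only [mem_offDiag, mem_union, mem_filter, mem_product]
    constructor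
    · rintro ⟨ha, hb, hab⟩
      rcases lt_or_gt_of_ne hab with h | h
      · exact Or.inl ⟨⟨ha, hb⟩, h⟩
      · exact Or.inr ⟨⟨ha, hb⟩, h⟩
    · rintro (⟨⟨ha, hb⟩, h⟩ | ⟨⟨ha, hb⟩, h⟩)
      · exact ⟨ha, hb, ne_of_lt h⟩
      · exact ⟨ha, hb, (ne_of_lt h).symm⟩
  have h3 : ((B ×ˢ B).filter (fun p => p.2 < p.1)).card =
      ((B ×ˢ B).filter (fun p => p.1 < p.2)).card := by
    apply Finset.card_bij (fun p _ => (p.2, p.1))
    · rintro ⟨a, b⟩ h
      simp only [mem_filter, mem_product] at h ⊢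
      tauto
    · rintro ⟨a, b⟩ _ ⟨a', b'⟩ _ h
      simp only [Prod.mk.injEq] at h
      ext <;> simp [h]
    · rintro ⟨a, b⟩ h
      simp only [mem_filter, mem_product] at h
      exact ⟨(b, a), by simp only [mem_filter, mem_product]; tauto, rfl⟩
  rw [h2, Finset.card_union_of_disjoint, h3] at h1
  · omega
  · rw [Finset.disjoint_left]
    rintro ⟨a, b⟩ h h'
    simp only [mem_filter] at h h'
    exact lt_asymm h.2 h'.2

theorem beta_four {𝓗 : KGraph 3} {c₁ c₂ : ℕ} (h𝓗 : Good 𝓗 c₁ c₂) (B : Finset (Fin N))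
    (hB : B.card = 4) {m : ℕ} :
    ∑ G ∈ CS 3 B (3 * m), wt 𝓗 G =
      6 * ∑ i ∈ Ico 1 m, -24 * (c₂ : ℚ) * ((2 * m).choose (2 * i) : ℚ) / m := by
  classical
  set T : Finset ((Fin N × Fin N) × ℕ) := ((B ×ˢ B).filter (fun p => p.1 < p.2)) ×ˢ Ico 1 m
    with hT
  let g : (Fin N × Fin N) × ℕ → MHG (Fin N) := fun t =>
    Multiset.replicate (3 * t.2) (B.erase t.1.2) + Multiset.replicate (3 * (m - t.2)) (B.erase t.1.1)
  have hTmem : ∀ t, t ∈ T ↔ t.1.1 ∈ B ∧ t.1.2 ∈ B ∧ t.1.1 < t.1.2 ∧ 1 ≤ t.2 ∧ t.2 < m := by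
    intro t
    rw [hT, mem_product, mem_filter, mem_product, mem_Ico]
    tauto
  have hcnt1 : ∀ t ∈ T, (g t).count (B.erase t.1.2) = 3 * t.2 := by
    intro t ht
    obtain ⟨h1, h2, h3, h4, h5⟩ := (hTmem t).1 ht
    simp only [g]
    rw [Multiset.count_add, Multiset.count_replicate_self, Multiset.count_replicate, if_neg,
      add_zero]
    intro h
    have := (Finset.erase_inj B h1).1 h
    exact (ne_of_lt h3) this
  have hmemg : ∀ t ∈ T, ∀ b, b ∈ g t ↔ b = B.erase t.1.2 ∨ b = B.erase t.1.1 := by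
    intro t ht b
    obtain ⟨h1, h2, h3, h4, h5⟩ := (hTmem t).1 ht
    simp only [g]
    rw [Multiset.mem_add, Multiset.mem_replicate, Multiset.mem_replicate]
    constructor
    · rintro (⟨-, h⟩ | ⟨-, h⟩)
      · exact Or.inl h
      · exact Or.inr h
    · rintro (h | h)
      · exact Or.inl ⟨by omega, h⟩
      · exact Or.inr ⟨by omega, h⟩
  have hinj : Set.InjOn g (T : Set ((Fin N × Fin N) × ℕ)) := by
    intro t ht s hs hts
    have ht' : t ∈ T := ht
    have hs' : s ∈ T := hs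
    obtain ⟨h1, h2, h3, h4, h5⟩ := (hTmem t).1 ht'
    obtain ⟨k1, k2, k3, k4, k5⟩ := (hTmem s).1 hs'
    have e1 : B.erase t.1.2 = B.erase s.1.2 ∨ B.erase t.1.2 = B.erase s.1.1 := by
      rw [← hmemg s hs', ← hts, hmemg t ht']
      exact Or.inl rfl
    have e2 : B.erase t.1.1 = B.erase s.1.2 ∨ B.erase t.1.1 = B.erase s.1.1 := by
      rw [← hmemg s hs', ← hts, hmemg t ht']
      exact Or.inr rfl
    rw [Finset.erase_inj B h2, Finset.erase_inj B h2] at e1
    rw [Finset.erase_inj B h1, Finset.erase_inj B h1] at e2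
    have e3 : t.1.2 = s.1.2 := by
      rcases e1 with e1 | e1
      · exact e1
      · exfalso
        rcases e2 with e2 | e2
        · rw [e1, e2] at h3
          exact lt_asymm h3 k3
        · rw [e1, e2] at h3
          exact lt_irrefl _ h3
    have e4 : t.1.1 = s.1.1 := by
      rcases e2 with e2 | e2
      · exfalso
        rw [e3, e2] at h3
        exact lt_irrefl _ h3
      · exact e2
    have e5 : 3 * t.2 = 3 * s.2 := by
      rw [← hcnt1 t ht', ← hcnt1 s hs', hts, e3]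
    have e6 : t.2 = s.2 := by omega
    exact Prod.ext (Prod.ext e4 e3) e6
  have hsub : T.image g ⊆ CS 3 B (3 * m) := by
    intro G hG
    obtain ⟨t, ht, rfl⟩ := mem_image.1 hG
    obtain ⟨h1, h2, h3, h4, h5⟩ := (hTmem t).1 ht
    obtain ⟨y, z, g1, g2, g3, g4, g5, g6, g7, g8⟩ := exists_yz B hB h1 h2 (ne_of_lt h3)
    rw [mem_CS]
    refine ⟨conn_of_meet ?_ ?_, ?_, ?_, ?_⟩
    · intro h0
      have : B.erase t.1.2 ∈ g t := (hmemg t ht _).2 (Or.inl rfl)
      rw [h0] at this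
      simp at this
    · intro e he e' he'
      rw [hmemg t ht] at he he'
      refine ⟨y, ?_, ?_⟩
      · rcases he with h | h
        · rw [h, g6]; simp
        · rw [h, g7]; simp
      · rcases he' with h | h
        · rw [h, g6]; simp
        · rw [h, g7]; simp
    · simp only [g]
      rw [Multiset.card_add, Multiset.card_replicate, Multiset.card_replicate]
      omega
    · apply isVeblen_two
      · rw [Finset.card_erase_of_mem h2, hB]
      · rw [Finset.card_erase_of_mem h1, hB]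
    · simp only [g]
      rw [verts_two h4 (by omega), g6, g7, union_triples, ← g8]
  have hrest : ∀ G ∈ CS 3 B (3 * m), G ∉ T.image g → wt 𝓗 G = 0 := by
    intro G hG hG'
    by_contra hw
    apply hG'
    obtain ⟨g1, g2, g3, g4⟩ := mem_CS.1 hG
    rcases type_of_wt h𝓗 g3 g1.1 hw with ⟨e, m', he, hm', rfl⟩ |
      ⟨x, x', y, z, i, j, h1, h2, h3, h4, h5, h6, hi, hj, rfl⟩
    · rw [verts_one hm'] at g4
      rw [← g4, he] at hB
      omega
    · rw [verts_two hi hj, union_triples] at g4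
      rw [Multiset.card_add, Multiset.card_replicate, Multiset.card_replicate] at g2
      have hx : x ∈ B := by rw [← g4]; simp
      have hx' : x' ∈ B := by rw [← g4]; simp
      have e1 : B.erase x' = {x, y, z} := by
        rw [← g4]
        ext v
        simp only [mem_erase, mem_insert, mem_singleton]
        constructor
        · rintro ⟨k1, k2⟩; tauto
        · rintro (rfl | rfl | rfl)
          · exact ⟨h1, Or.inl rfl⟩
          · exact ⟨h4.symm, by tauto⟩
          · exact ⟨h5.symm, by tauto⟩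
      have e2 : B.erase x = {x', y, z} := by
        rw [← g4]
        ext v
        simp only [mem_erase, mem_insert, mem_singleton]
        constructor
        · rintro ⟨k1, k2⟩; tauto
        · rintro (rfl | rfl | rfl)
          · exact ⟨h1.symm, by tauto⟩
          · exact ⟨h2.symm, by tauto⟩
          · exact ⟨h3.symm, by tauto⟩
      rw [mem_image]
      rcases lt_or_gt_of_ne h1 with hlt | hlt
      · refine ⟨((x, x'), i), (hTmem _).2 ⟨hx, hx', hlt, hi, by omega⟩, ?_⟩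
        simp only [g]
        rw [e1, e2, show m - i = j by omega]
      · refine ⟨((x', x), j), (hTmem _).2 ⟨hx', hx, hlt, hj, by omega⟩, ?_⟩
        simp only [g]
        rw [e1, e2, show m - j = i by omega, add_comm]
  rw [← Finset.sum_subset hsub hrest, Finset.sum_image hinj]
  have hval : ∀ t ∈ T, wt 𝓗 (g t) = -24 * (c₂ : ℚ) * ((2 * m).choose (2 * t.2) : ℚ) / m := by
    intro t ht
    obtain ⟨h1, h2, h3, h4, h5⟩ := (hTmem t).1 ht
    obtain ⟨y, z, g1, g2, g3, g4, g5, g6, g7, g8⟩ := exists_yz B hB h1 h2 (ne_of_lt h3)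
    simp only [g]
    rw [g6, g7, wt_two h𝓗 (ne_of_lt h3) g1 g2 g3 g4 g5 h4 (by omega)]
    have h8 : t.2 + (m - t.2) = m := by omega
    have h9 : (t.2 : ℚ) + ((m - t.2 : ℕ) : ℚ) = m := by
      rw [← Nat.cast_add, h8]
    rw [h8, h9]
  rw [Finset.sum_congr rfl hval, hT, Finset.sum_product]
  simp only [Finset.sum_const]
  rw [card_pairs B hB]
  simp

/-- The sum of the weights of the connected hypergraphs with `M` vertices and `j` edges. -/
noncomputable def bt (c₁ c₂ : ℕ) (M j : ℕ) : ℚ :=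
  if 3 ∣ j ∧ 0 < j then
    if M = 3 then -36 * c₁ / ((j / 3 : ℕ) : ℚ)
    else if M = 4 then
      6 * ∑ i ∈ Ico 1 (j / 3), -24 * (c₂ : ℚ) * ((2 * (j / 3)).choose (2 * i) : ℚ) /
        ((j / 3 : ℕ) : ℚ)
    else 0
  else 0

theorem beta_eq {𝓗 : KGraph 3} {c₁ c₂ : ℕ} (h𝓗 : Good 𝓗 c₁ c₂) (B : Finset (Fin N)) (j : ℕ) :
    ∑ G ∈ CS 3 B j, wt 𝓗 G = bt c₁ c₂ B.card j := by
  unfold bt
  split_ifs with h1 h2 h3
  · obtain ⟨⟨m, rfl⟩, h5⟩ := h1
    rw [beta_three h𝓗 B h2 (by omega), show 3 * m / 3 = m by omega]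
  · obtain ⟨⟨m, rfl⟩, h5⟩ := h1
    rw [beta_four h𝓗 B h3, show 3 * m / 3 = m by omega]
  · exact beta_other h𝓗 B h2 h3 j
  · apply beta_zero h𝓗 B j
    rintro m hm rfl
    exact h1 ⟨dvd_mul_right 3 m, by omega⟩

end

end Pool.Agent.Veblen
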