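import Pool.Agent.Veblen.Defs

set_option autoImplicit false

namespace Pool.Agent.Veblen

open Finset

section

variable {α : Type} [DecidableEq α]

theorem verts_add (A B : MHG α) : verts (A + B) = verts A ∪ verts B := by
  ext v
  simp only [mem_verts, mem_union, Multiset.mem_add]
  constructor
  · rintro ⟨e, he | he, hv⟩
    · exact Or.inl ⟨e, he, hv⟩
    · exact Or.inr ⟨e, he, hv⟩
  · rintro (⟨e, he, hv⟩ | ⟨e, he, hv⟩)
    · exact ⟨e, Or.inl he, hv⟩
    · exact ⟨e, Or.inr he, hv⟩

theorem verts_zero : verts (0 : MHG α) = ∅ := by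
  ext v; simp [mem_verts]

theorem verts_mono {A B : MHG α} (h : A ≤ B) : verts A ⊆ verts B := by
  intro v hv
  obtain ⟨e, he, hv⟩ := mem_verts.1 hv
  exact mem_verts.2 ⟨e, Multiset.mem_of_le h he, hv⟩

/-- all edges nonempty -/
def NE (H : MHG α) : Prop := ∀ e ∈ H, e.Nonempty

theorem NE.mono {A B : MHG α} (h : NE B) (hAB : A ≤ B) : NE A :=
  fun e he => h e (Multiset.mem_of_le hAB he)

theorem IsVeblen.NE {k : ℕ} (hk : 0 < k) {H : MHG α} (h : IsVeblen k H) : NE H := by
  intro e he
  rw [← Finset.card_pos, h.1 e he]
  exact hk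

theorem verts_nonempty {H : MHG α} (h : NE H) (h0 : H ≠ 0) : (verts H).Nonempty := by
  obtain ⟨e, he⟩ := Multiset.exists_mem_of_ne_zero h0
  obtain ⟨v, hv⟩ := h e he
  exact ⟨v, mem_verts.2 ⟨e, he, hv⟩⟩

theorem not_mem_of_disjoint {A B : MHG α} (hA : NE A) (h : Disjoint (verts A) (verts B))
    {e : Finset α} (he : e ∈ A) : e ∉ B := by
  intro heB
  obtain ⟨v, hv⟩ := hA e he
  exact Finset.disjoint_left.1 h (mem_verts.2 ⟨e, he, hv⟩) (mem_verts.2 ⟨e, heB, hv⟩)

theorem mem_comps {H G : MHG α} : G ∈ comps H ↔
    G ≤ H ∧ Conn G ∧ Disjoint (verts G) (verts (H - G)) := by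
  classical
  simp [comps]

theorem comps_zero : comps (0 : MHG α) = ∅ := by
  ext G
  rw [mem_comps]
  simp only [nonpos_iff_eq_zero, notMem_empty, iff_false, not_and]
  rintro rfl h
  exact absurd rfl h.1

/-- Adding a disjoint connected hypergraph adds one component. -/
theorem comps_add {G H : MHG α} (hG : Conn G) (hNE : NE (G + H))
    (hd : Disjoint (verts G) (verts H)) : comps (G + H) = insert G (comps H) ∧ G ∉ comps H := by
  have hNEG : NE G := hNE.mono (Multiset.le_add_right G H)
  have hNEH : NE H := hNE.mono (Multiset.le_add_left H G)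
  constructor
  · ext K
    rw [mem_insert, mem_comps, mem_comps]
    constructor
    · rintro ⟨hK1, hK2, hK3⟩
      -- split K
      let K1 : MHG α := K ∩ G
      let K2 : MHG α := K - K1
      have hK12 : K = K1 + K2 := by
        rw [add_comm]
        exact (tsub_add_cancel_of_le (Multiset.inter_le_left)).symm
      have hK2H : K2 ≤ H := by
        rw [Multiset.le_iff_count]
        intro e
        simp only [K2, K1, Multiset.count_sub, Multiset.count_inter]
        have h1 := Multiset.le_iff_count.1 hK1 e
        rw [Multiset.count_add] at h1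
        omega
      have hdis : Disjoint (verts K1) (verts K2) := by
        apply Finset.disjoint_of_subset_left (verts_mono (Multiset.inter_le_right : K1 ≤ G))
        exact Finset.disjoint_of_subset_right (verts_mono hK2H) hd
      rcases hK2.2 K1 K2 hK12 hdis with h0 | h0
      · right
        have hKK : K = K2 := by rw [hK12, h0, zero_add]
        have hKH : K ≤ H := by rw [hKK]; exact hK2H
        refine ⟨hKH, hK2, ?_⟩
        apply Finset.disjoint_of_subset_right _ hK3
        apply verts_mono
        rw [Multiset.le_iff_count]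
        intro e
        simp only [Multiset.count_sub, Multiset.count_add]
        omega
      · left
        have hKG : K ≤ G := by
          have : K = K1 := by
            conv_lhs => rw [hK12, h0, add_zero]
          exact le_trans (le_of_eq this) (Multiset.inter_le_right : K1 ≤ G)
        have hsplit : G = K + (G - K) := (add_tsub_cancel_of_le hKG).symm
        rcases hG.2 K (G - K) hsplit (by
          apply Finset.disjoint_of_subset_right _ hK3
          apply verts_mono
          rw [Multiset.le_iff_count]
          intro e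
          simp only [Multiset.count_sub, Multiset.count_add]
          omega) with h1 | h1
        · exact absurd h1 hK2.1
        · rw [hsplit, h1, add_zero]
    · rintro (rfl | ⟨h1, h2, h3⟩)
      · refine ⟨Multiset.le_add_right _ _, hG, ?_⟩
        rw [add_tsub_cancel_left]
        exact hd
      · refine ⟨h1.trans (Multiset.le_add_left _ _), h2, ?_⟩
        have h4 : G + H - K = G + (H - K) := add_tsub_assoc_of_le h1 G
        rw [h4, verts_add, Finset.disjoint_union_right]
        refine ⟨?_, h3⟩
        exact Finset.disjoint_of_subset_left (verts_mono h1) hd.symm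
  · intro hmem
    obtain ⟨h1, h2, -⟩ := mem_comps.1 hmem
    obtain ⟨v, hv⟩ := verts_nonempty hNEG hG.1
    exact Finset.disjoint_left.1 hd hv (verts_mono h1 hv)

/-- Removing a component. -/
theorem comps_sub {G H : MHG α} (hNE : NE H) (hG : G ∈ comps H) :
    comps H = insert G (comps (H - G)) ∧ G ∉ comps (H - G) := by
  obtain ⟨h1, h2, h3⟩ := mem_comps.1 hG
  have h4 : G + (H - G) = H := add_tsub_cancel_of_le h1
  have := comps_add h2 (by rw [h4]; exact hNE) h3
  rwa [h4] at this

theorem exists_comp {H : MHG α} (hNE : NE H) (h0 : H ≠ 0) : (comps H).Nonempty := by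
  classical
  -- a minimal nonzero closed part
  have hex : ∃ n : ℕ, ∃ G : MHG α, G ≤ H ∧ G ≠ 0 ∧ Disjoint (verts G) (verts (H - G)) ∧
      Multiset.card G = n := by
    refine ⟨Multiset.card H, H, le_refl _, h0, ?_, rfl⟩
    rw [tsub_self, verts_zero]
    exact Finset.disjoint_empty_right _
  obtain ⟨G, hGH, hG0, hGd, hGc⟩ := Nat.find_spec hex
  refine ⟨G, mem_comps.2 ⟨hGH, ⟨hG0, ?_⟩, hGd⟩⟩
  intro H₁ H₂ h12 hd
  by_contra hcon
  push Not at hcon
  obtain ⟨hH1, hH2⟩ := hcon
  have hsub : H - H₁ = (H - G) + H₂ := by
    have h5 : H = (H - G) + (H₁ + H₂) := by rw [← h12]; exact (tsub_add_cancel_of_le hGH).symm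
    calc H - H₁ = (H - G) + (H₁ + H₂) - H₁ := by rw [← h5]
      _ = (H - G) + H₂ := by
        rw [add_comm H₁ H₂, ← add_assoc, add_tsub_cancel_right]
  have hlt : Multiset.card H₁ < Nat.find hex := by
    rw [← hGc, h12, Multiset.card_add]
    have : 0 < Multiset.card H₂ := Multiset.card_pos.2 hH2
    omega
  apply Nat.find_min hex hlt
  refine ⟨H₁, ?_, hH1, ?_, rfl⟩
  · exact le_trans (by rw [h12]; exact Multiset.le_add_right _ _) hGH
  · rw [hsub, verts_add, Finset.disjoint_union_right]
    refine ⟨?_, hd⟩
    apply Finset.disjoint_of_subset_left _ hGd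
    apply verts_mono
    rw [h12]
    exact Multiset.le_add_right _ _

theorem sum_card_comps {H : MHG α} (hNE : NE H) :
    ∑ G ∈ comps H, Multiset.card G = Multiset.card H := by
  induction hn : Multiset.card H using Nat.strong_induction_on generalizing H with
  | _ n ih =>
    by_cases h0 : H = 0
    · subst h0
      rw [comps_zero, Finset.sum_empty]
      simpa using hn
    · obtain ⟨G, hG⟩ := exists_comp hNE h0
      obtain ⟨h1, h2, h3⟩ := mem_comps.1 hG
      obtain ⟨h4, h5⟩ := comps_sub hNE hG
      rw [h4, Finset.sum_insert h5]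
      have hcard : Multiset.card (H - G) = n - Multiset.card G := by
        rw [Multiset.card_sub h1, hn]
      have hpos : 0 < Multiset.card G := Multiset.card_pos.2 h2.1
      have hle : Multiset.card G ≤ n := by rw [← hn]; exact Multiset.card_le_card h1
      rw [ih (n - Multiset.card G) (by omega) (hNE.mono tsub_le_self) hcard]
      omega

/-- Degrees in disjoint unions. -/
theorem deg_add (A B : MHG α) (v : α) : deg (A + B) v = deg A v + deg B v := by
  unfold deg
  exact Multiset.countP_add _ _ _

theorem deg_eq_zero {A : MHG α} {v : α} (h : v ∉ verts A) : deg A v = 0 := by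
  unfold deg
  rw [Multiset.countP_eq_zero]
  intro e he hv
  exact h (mem_verts.2 ⟨e, he, hv⟩)

theorem IsVeblen.add {k : ℕ} {A B : MHG α} (hA : IsVeblen k A) (hB : IsVeblen k B) :
    IsVeblen k (A + B) := by
  refine ⟨fun e he => ?_, fun v => ?_⟩
  · rcases Multiset.mem_add.1 he with h | h
    · exact hA.1 e h
    · exact hB.1 e h
  · rw [deg_add]
    exact dvd_add (hA.2 v) (hB.2 v)

theorem IsVeblen.of_add_left {k : ℕ} {A B : MHG α} (h : IsVeblen k (A + B))
    (hd : Disjoint (verts A) (verts B)) : IsVeblen k A := by
  refine ⟨fun e he => h.1 e (Multiset.mem_add.2 (Or.inl he)), fun v => ?_⟩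
  by_cases hv : v ∈ verts B
  · rw [deg_eq_zero (fun hA => Finset.disjoint_left.1 hd hA hv)]
    exact dvd_zero k
  · have := h.2 v
    rwa [deg_add, deg_eq_zero hv, add_zero] at this

theorem IsVeblen.of_add_right {k : ℕ} {A B : MHG α} (h : IsVeblen k (A + B))
    (hd : Disjoint (verts A) (verts B)) : IsVeblen k B := by
  rw [add_comm] at h
  exact h.of_add_left hd.symm

theorem card_verts_le {k : ℕ} {H : MHG α} (h : ∀ e ∈ H, e.card = k) :
    (verts H).card ≤ k * Multiset.card H := by
  induction H using Multiset.induction_on with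
  | empty => simp [verts_zero]
  | cons a H ih =>
    rw [← Multiset.singleton_add, verts_add, Multiset.card_add, Multiset.card_singleton]
    have h1 : verts ({a} : MHG α) = a := by
      ext v; simp [mem_verts]
    have h2 := Finset.card_union_le (verts ({a} : MHG α)) (verts H)
    have h3 := ih (fun e he => h e (Multiset.mem_cons_of_mem he))
    have h4 : a.card = k := h a (Multiset.mem_cons_self a H)
    rw [h1] at h2 ⊢
    rw [mul_add, mul_one]
    omega

end

end Pool.Agent.Veblen
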