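import Mathlib

set_option autoImplicit false

/-!
# Veblen hypergraphs and the coefficient threshold: definitions

A finite labelled `k`-uniform multi-hypergraph without isolated vertices is given by the
multiset of its edges, each edge being a finite set of vertices.
-/

namespace Pool.Agent.Veblen

open Finset

/-- A finite multi-hypergraph with vertices in `α` and without isolated vertices:
the multiset of its edges. Its flattening is `H.dedup`. -/
abbrev MHG (α : Type) : Type := Multiset (Finset α)

section general

variable {α β : Type} [DecidableEq α] [DecidableEq β]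

/-- The vertex set of `H`: the union of its edges. -/
def verts (H : MHG α) : Finset α := H.toFinset.biUnion id

/-- The degree of `v` in `H`, counted with multiplicity. -/
def deg (H : MHG α) (v : α) : ℕ := H.countP (fun e => v ∈ e)

/-- `H` is a `k`-uniform Veblen hypergraph: all edges have `k` vertices and all degrees are
divisible by `k`. -/
def IsVeblen (k : ℕ) (H : MHG α) : Prop := (∀ e ∈ H, e.card = k) ∧ ∀ v, k ∣ deg H v

/-- `H` is connected: it has an edge, and it is not the union of two nonempty parts with
disjoint vertex sets. -/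
def Conn (H : MHG α) : Prop :=
  H ≠ 0 ∧ ∀ H₁ H₂ : MHG α, H = H₁ + H₂ → Disjoint (verts H₁) (verts H₂) → H₁ = 0 ∨ H₂ = 0

open Classical in
/-- The connected components of `H`: the connected `G ≤ H` sharing no vertex with the rest. -/
noncomputable def comps (H : MHG α) : Finset (MHG α) :=
  H.powerset.toFinset.filter fun G => Conn G ∧ Disjoint (verts G) (verts (H - G))

/-- `H` and `H'` are isomorphic: some map, injective on the vertices of `H`, carries the edge
multiset of `H` to that of `H'`. -/
def Iso (H : MHG α) (H' : MHG β) : Prop :=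
  ∃ f : α → β, Set.InjOn f (verts H : Set α) ∧ H.map (Finset.image f) = H'

open Classical in
/-- `|Aut(H)|`: the number of permutations of the vertex set of `H` (extended by the identity)
that preserve the edge multiset. -/
noncomputable def autCard [Fintype α] (H : MHG α) : ℕ :=
  Fintype.card {σ : Equiv.Perm α // (∀ v, v ∉ verts H → σ v = v) ∧
    H.map (Finset.image σ) = H}

/-- The multiplicity of the arc `u → v` in the digraph `D_R` of a sequence `R` of stars; the
entry `(e, u)` of `R` is the star `S_e(u)`, with arcs from `u` to the other vertices of `e`. -/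
def arc {m : ℕ} (R : Fin m → Finset α × α) (u v : α) : ℕ :=
  (univ.filter fun i => (R i).2 = u ∧ v ∈ (R i).1 ∧ v ≠ u).card

/-- out-degree in `D_R` -/
def outdeg [Fintype α] {m : ℕ} (R : Fin m → Finset α × α) (u : α) : ℕ := ∑ v, arc R u v

/-- in-degree in `D_R` -/
def indeg [Fintype α] {m : ℕ} (R : Fin m → Finset α × α) (v : α) : ℕ := ∑ u, arc R u v

/-- `D_R` is Eulerian: in-degree and out-degree agree everywhere (this is used for connected
hypergraphs only, where `D_R` is connected). -/
def IsEulerian [Fintype α] {m : ℕ} (R : Fin m → Finset α × α) : Prop :=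
  ∀ v, indeg R v = outdeg R v

end general

section ordered

variable {α : Type} [LinearOrder α]

/-- `g` is an arborescence on `S` directed towards the least vertex of `S`: `g v` is the parent
of `v`, the root is mapped to itself and every vertex reaches the root. -/
def IsArb (S : Finset α) (g : {v // v ∈ S} → {v // v ∈ S}) : Prop :=
  (∀ v : {v // v ∈ S}, IsLeast (S : Set α) (v : α) → g v = v) ∧
    ∀ v : {v // v ∈ S}, ∃ n : ℕ, IsLeast (S : Set α) ((g^[n] v : {v // v ∈ S}) : α)

open Classical in
/-- The number `τ` of arborescences, with root the least vertex of `S`, of the multi-digraph on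
`S` with arc multiplicities `a`. -/
noncomputable def arbs (S : Finset α) (a : α → α → ℕ) : ℕ :=
  ∑ g ∈ univ.filter (fun g : {v // v ∈ S} → {v // v ∈ S} => IsArb S g),
    ∏ v ∈ univ.filter (fun v : {v // v ∈ S} => ¬ IsLeast (S : Set α) (v : α)), a v (g v)

open Classical in
/-- The rootings of `H`: sequences `((e₁, v₁), …, (e_m, v_m))` with `vᵢ ∈ eᵢ`, `v₁ ≤ ⋯ ≤ v_m`
whose edges `e₁, …, e_m` form the edge multiset of `H`. -/
noncomputable def rootings [Fintype α] (H : MHG α) :
    Finset (Fin (Multiset.card H) → Finset α × α) :=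
  univ.filter fun R => (univ.val.map fun i => (R i).1) = H ∧ (∀ i, (R i).2 ∈ (R i).1) ∧
    Monotone fun i => (R i).2

open Classical in
/-- `C_H` for connected `H`. -/
noncomputable def Cconn [Fintype α] (H : MHG α) : ℚ :=
  ∑ R ∈ (rootings H).filter (fun R => IsEulerian R),
    (arbs (verts H) (arc R) : ℚ) / ∏ v ∈ verts H, (indeg R v : ℚ)

end ordered

/-- A `k`-graph: a finite simple `k`-uniform hypergraph, with vertices labelled by naturals. -/
structure KGraph (k : ℕ) where
  /-- vertices -/
  V : Finset ℕ
  /-- edges -/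
  E : Finset (Finset ℕ)
  edge_sub : ∀ e ∈ E, e ⊆ V
  edge_card : ∀ e ∈ E, e.card = k

/-- `𝓗 ⊆ 𝓖` -/
def KGraph.Sub {k : ℕ} (𝓗 𝓖 : KGraph k) : Prop := 𝓗.V ⊆ 𝓖.V ∧ 𝓗.E ⊆ 𝓖.E

open Classical in
/-- `|{S ⊆ 𝓗 : S ≅ F}|` for `F` without isolated vertices; such an `S` is determined by its
edges. -/
noncomputable def copies {k : ℕ} {α : Type} [DecidableEq α] (𝓗 : KGraph k) (F : MHG α) : ℕ :=
  (𝓗.E.powerset.filter fun S => Iso S.val F).card

/-- `(#H ⊆ 𝓗)` -/
noncomputable def numSub {k : ℕ} {α : Type} [DecidableEq α] [Fintype α] (𝓗 : KGraph k)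
    (H : MHG α) : ℚ :=
  1 / (autCard H : ℚ) *
    ∏ G ∈ comps H, ((autCard (Multiset.dedup G) : ℚ) * (copies 𝓗 (Multiset.dedup G) : ℚ))

/-- The summand `(-(k-1)^v)^{c(H)} C_H (#H ⊆ 𝓗)`, where `C_H` is the product of the `C_G` over
the components `G` of `H` and `c(H)` is the number of components. -/
noncomputable def summand {k : ℕ} {α : Type} [LinearOrder α] [Fintype α] (v : ℕ)
    (𝓗 : KGraph k) (H : MHG α) : ℚ :=
  (-((k : ℚ) - 1) ^ v) ^ (comps H).card * (∏ G ∈ comps H, Cconn G) * numSub 𝓗 H

/-- The `k`-uniform Veblen hypergraphs with `d` edges and vertex set exactly `Fin N`. -/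
def VH (k d N : ℕ) : Type :=
  {H : Sym (Finset (Fin N)) d // IsVeblen k (H : MHG (Fin N)) ∧
    verts (H : MHG (Fin N)) = univ}

/-- The underlying edge multiset. -/
def VH.toMHG {k d N : ℕ} (H : VH k d N) : MHG (Fin N) := (H.1 : MHG (Fin N))

theorem mem_verts {α : Type} [DecidableEq α] {H : MHG α} {v : α} :
    v ∈ verts H ↔ ∃ e ∈ H, v ∈ e := by
  simp [verts]

theorem verts_map {α β : Type} [DecidableEq α] [DecidableEq β] (H : MHG α) (f : α → β) :
    verts (H.map (Finset.image f)) = (verts H).image f := by
  ext v
  simp only [mem_verts, Multiset.mem_map, mem_image]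
  constructor
  · rintro ⟨e, ⟨e', he', rfl⟩, hv⟩
    obtain ⟨u, hu, rfl⟩ := mem_image.1 hv
    exact ⟨u, ⟨e', he', hu⟩, rfl⟩
  · rintro ⟨u, ⟨e', he', hu⟩, rfl⟩
    exact ⟨_, ⟨e', he', rfl⟩, mem_image_of_mem _ hu⟩

/-- Isomorphism of Veblen hypergraphs with `N` vertices. -/
instance isoSetoid (k d N : ℕ) : Setoid (VH k d N) where
  r H H' := Iso H.toMHG H'.toMHG
  iseqv :=
    { refl := fun H => ⟨id, Set.injOn_id _, by
        have h : (Finset.image (id : Fin N → Fin N)) = id := by
          funext e; exact Finset.image_id
        rw [h, Multiset.map_id]⟩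
      symm := by
        rintro H H' ⟨f, hf, hmap⟩
        have hu : verts H.toMHG = univ := H.2.2
        rw [hu, Finset.coe_univ, Set.injOn_univ] at hf
        let e : Fin N ≃ Fin N := Equiv.ofBijective f (Finite.injective_iff_bijective.1 hf)
        refine ⟨e.symm, e.symm.injective.injOn, ?_⟩
        rw [← hmap, Multiset.map_map]
        have h : (Finset.image e.symm ∘ Finset.image f) = id := by
          funext s
          simp only [Function.comp_apply, id_eq, Finset.image_image]
          have : (e.symm : Fin N → Fin N) ∘ f = id := by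
            funext x; exact e.symm_apply_apply x
          rw [this, Finset.image_id]
        rw [h, Multiset.map_id]
      trans := by
        rintro H H' H'' ⟨f, hf, hmap⟩ ⟨g, hg, hmap'⟩
        refine ⟨g ∘ f, ?_, ?_⟩
        · intro a ha b hb hab
          have h1 : verts H'.toMHG = (verts H.toMHG).image f := by rw [← hmap, verts_map]
          apply hf ha hb
          apply hg _ _ hab
          · rw [h1]; exact_mod_cast mem_image_of_mem f (by exact_mod_cast ha)
          · rw [h1]; exact_mod_cast mem_image_of_mem f (by exact_mod_cast hb)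
        · rw [← hmap', ← hmap, Multiset.map_map]
          congr 1
          funext s
          simp [Finset.image_image] }

noncomputable instance (k d N : ℕ) : Fintype (VH k d N) := by
  classical
  unfold VH
  infer_instance

open Classical in
/-- The sum of the summands over `𝒱_d^*(𝓗)`: the isomorphism classes of Veblen hypergraphs with
`d` edges all of whose components have a flattening contained in `𝓗`. The classes are sorted
by the number `N ≤ k d` of vertices. -/
noncomputable def coeffSum {k : ℕ} (v d : ℕ) (𝓗 : KGraph k) : ℚ :=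
  ∑ N ∈ range (k * d + 1), ∑ q : Quotient (isoSetoid k d N),
    if ∀ G ∈ comps q.out.toMHG, ∃ S ⊆ 𝓗.E, Iso S.val (Multiset.dedup G) then
      summand v 𝓗 q.out.toMHG
    else 0

/-- The coefficient `v`-threshold `Th_v(𝓗)`. -/
noncomputable def Th {k : ℕ} (v : ℕ) (𝓗 : KGraph k) : ℕ :=
  sInf {T : ℕ | ∀ d > T, coeffSum v d 𝓗 = 0}

end Pool.Agent.Veblen
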