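import Pool.Agent.Veblen.Comps

set_option autoImplicit false

namespace Pool.Agent.Veblen

open Finset

section

variable {α : Type} [DecidableEq α] [Fintype α]

open Classical in
/-- Veblen hypergraphs with vertex set `S` and `d` edges. -/
noncomputable def VS (k : ℕ) (S : Finset α) (d : ℕ) : Finset (MHG α) :=
  ((univ : Finset (Sym (Finset α) d)).image (fun s : Sym (Finset α) d => s.1)).filter
    (fun H => IsVeblen k H ∧ verts H = S)

theorem mem_VS {k : ℕ} {S : Finset α} {d : ℕ} {H : MHG α} :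
    H ∈ VS k S d ↔ Multiset.card H = d ∧ IsVeblen k H ∧ verts H = S := by
  classical
  unfold VS
  rw [mem_filter, mem_image]
  constructor
  · intro h
    obtain ⟨s, -, hs⟩ := h.1
    refine ⟨?_, h.2⟩
    rw [← hs]
    exact s.2
  · rintro ⟨h1, h2⟩
    exact ⟨⟨Sym.mk H h1, mem_univ _, rfl⟩, h2⟩

open Classical in
/-- connected ones -/
noncomputable def CS (k : ℕ) (S : Finset α) (d : ℕ) : Finset (MHG α) :=
  (VS k S d).filter Conn

theorem mem_CS {k : ℕ} {S : Finset α} {d : ℕ} {H : MHG α} :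
    H ∈ CS k S d ↔ Conn H ∧ Multiset.card H = d ∧ IsVeblen k H ∧ verts H = S := by
  classical
  unfold CS
  rw [mem_filter, mem_VS]
  tauto

/-- The weighted sum over labelled Veblen hypergraphs. -/
noncomputable def Asum (k : ℕ) (w : MHG α → ℚ) (S : Finset α) (d : ℕ) : ℚ :=
  ∑ H ∈ VS k S d, ∏ G ∈ comps H, w G

theorem pointing {k : ℕ} (hk : 0 < k) (w : MHG α → ℚ) (S : Finset α) (d : ℕ) :
    (d : ℚ) * Asum k w S d = ∑ B ∈ S.powerset, ∑ j ∈ range (d + 1),
      (∑ G ∈ CS k B j, (j : ℚ) * w G) * Asum k w (S \ B) (d - j) := by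
  classical
  have hL : (d : ℚ) * Asum k w S d = ∑ H ∈ VS k S d, ∑ G ∈ comps H,
      (Multiset.card G : ℚ) * (w G * ∏ G' ∈ comps (H - G), w G') := by
    unfold Asum
    rw [Finset.mul_sum]
    apply Finset.sum_congr rfl
    intro H hH
    obtain ⟨h1, h2, -⟩ := mem_VS.1 hH
    have hNE := h2.NE hk
    rw [← h1, ← sum_card_comps hNE]
    push_cast
    rw [Finset.sum_mul]
    apply Finset.sum_congr rfl
    intro G hG
    obtain ⟨h3, h4⟩ := comps_sub hNE hG
    congr 1
    rw [h3, Finset.prod_insert h4]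
  rw [hL]
  have hR : ∀ B ∈ S.powerset, ∀ j ∈ range (d + 1),
      (∑ G ∈ CS k B j, (j : ℚ) * w G) * Asum k w (S \ B) (d - j) =
      ∑ G ∈ CS k B j, ∑ H' ∈ VS k (S \ B) (d - j),
        (j : ℚ) * (w G * ∏ G' ∈ comps H', w G') := by
    intro B _ j _
    unfold Asum
    rw [Finset.sum_mul]
    apply Finset.sum_congr rfl
    intro G _
    rw [Finset.mul_sum]
    apply Finset.sum_congr rfl
    intro H' _
    ring
  rw [Finset.sum_congr rfl (fun B hB => Finset.sum_congr rfl (hR B hB))]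
  simp only [Finset.sum_sigma']
  apply Finset.sum_bij'
    (fun (x : (_ : MHG α) × MHG α) _ =>
      (⟨verts x.2, Multiset.card x.2, x.2, x.1 - x.2⟩ :
        (_ : Finset α) × (_ : ℕ) × (_ : MHG α) × MHG α))
    (fun (y : (_ : Finset α) × (_ : ℕ) × (_ : MHG α) × MHG α) _ =>
      (⟨y.2.2.1 + y.2.2.2, y.2.2.1⟩ : (_ : MHG α) × MHG α))
  · rintro ⟨H, G⟩ hx
    simp only [mem_sigma] at hx
    obtain ⟨hH, hG⟩ := hx
    obtain ⟨h1, h2, h3⟩ := mem_VS.1 hH
    obtain ⟨h4, h5, h6⟩ := mem_comps.1 hG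
    have h7 : G + (H - G) = H := add_tsub_cancel_of_le h4
    have hVG : IsVeblen k G := by rw [← h7] at h2; exact h2.of_add_left h6
    have hVH : IsVeblen k (H - G) := by rw [← h7] at h2; exact h2.of_add_right h6
    simp only [mem_sigma, mem_powerset, mem_range]
    refine ⟨?_, ?_, ?_, ?_⟩
    · rw [← h3]; exact verts_mono h4
    · rw [← h1]; exact Nat.lt_succ_of_le (Multiset.card_le_card h4)
    · exact mem_CS.2 ⟨h5, rfl, hVG, rfl⟩
    · refine mem_VS.2 ⟨?_, hVH, ?_⟩
      · rw [Multiset.card_sub h4, h1]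
      · rw [← h3, ← h7, verts_add, add_tsub_cancel_left]
        rw [Finset.union_sdiff_cancel_left h6]
  · rintro ⟨B, j, G, H'⟩ hy
    simp only [mem_sigma, mem_powerset, mem_range] at hy
    obtain ⟨hB, hj, hG, hH'⟩ := hy
    obtain ⟨g1, g2, g3, g4⟩ := mem_CS.1 hG
    obtain ⟨h1, h2, h3⟩ := mem_VS.1 hH'
    have hd : Disjoint (verts G) (verts H') := by
      rw [g4, h3]; exact Finset.disjoint_sdiff
    simp only [mem_sigma]
    constructor
    · refine mem_VS.2 ⟨?_, g3.add h2, ?_⟩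
      · rw [Multiset.card_add, g2, h1]; omega
      · rw [verts_add, g4, h3, Finset.union_sdiff_of_subset hB]
    · refine mem_comps.2 ⟨Multiset.le_add_right _ _, g1, ?_⟩
      rw [add_tsub_cancel_left]
      exact hd
  · rintro ⟨H, G⟩ hx
    simp only [mem_sigma] at hx
    obtain ⟨hH, hG⟩ := hx
    obtain ⟨h4, h5, h6⟩ := mem_comps.1 hG
    simp only [Sigma.mk.injEq, heq_eq_eq, and_true]
    exact add_tsub_cancel_of_le h4
  · rintro ⟨B, j, G, H'⟩ hy
    simp only [mem_sigma, mem_powerset, mem_range] at hy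
    obtain ⟨hB, hj, hG, hH'⟩ := hy
    obtain ⟨g1, g2, g3, g4⟩ := mem_CS.1 hG
    simp only [Sigma.mk.injEq, heq_eq_eq, and_true]
    exact ⟨g4, g2, trivial, add_tsub_cancel_left G H'⟩
  · rintro ⟨H, G⟩ hx
    simp only

end

end Pool.Agent.Veblen
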