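import Pool.Agent.Veblen.Pointing

set_option autoImplicit false

namespace Pool.Agent.Veblen

open Finset

section

variable {α : Type} [DecidableEq α]

/-- relabelling of the vertices -/
def relabel (σ : Equiv.Perm α) (H : MHG α) : MHG α := H.map (Finset.image σ)

theorem image_perm_injective (σ : Equiv.Perm α) : Function.Injective (Finset.image σ) :=
  Finset.image_injective σ.injective

theorem relabel_add (σ : Equiv.Perm α) (A B : MHG α) :
    relabel σ (A + B) = relabel σ A + relabel σ B := Multiset.map_add _ _ _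

theorem relabel_zero (σ : Equiv.Perm α) : relabel σ (0 : MHG α) = 0 := Multiset.map_zero _

theorem relabel_relabel (σ τ : Equiv.Perm α) (H : MHG α) :
    relabel σ (relabel τ H) = relabel (σ * τ) H := by
  unfold relabel
  rw [Multiset.map_map]
  congr 1
  funext e
  simp [Finset.image_image]

theorem relabel_one (H : MHG α) : relabel 1 H = H := by
  unfold relabel
  have h : (Finset.image ((1 : Equiv.Perm α) : α → α)) = id := by
    funext e; exact Finset.image_id
  rw [h, Multiset.map_id]

theorem relabel_inv_relabel (σ : Equiv.Perm α) (H : MHG α) : relabel σ⁻¹ (relabel σ H) = H := by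
  rw [relabel_relabel, inv_mul_cancel, relabel_one]

theorem relabel_relabel_inv (σ : Equiv.Perm α) (H : MHG α) : relabel σ (relabel σ⁻¹ H) = H := by
  rw [relabel_relabel, mul_inv_cancel, relabel_one]

theorem relabel_injective (σ : Equiv.Perm α) : Function.Injective (relabel σ) := by
  intro A B h
  rw [← relabel_inv_relabel σ A, h, relabel_inv_relabel]

theorem relabel_le (σ : Equiv.Perm α) {A B : MHG α} (h : A ≤ B) : relabel σ A ≤ relabel σ B :=
  Multiset.map_le_map h

theorem relabel_sub (σ : Equiv.Perm α) {A B : MHG α} (h : A ≤ B) :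
    relabel σ (B - A) = relabel σ B - relabel σ A := by
  have h1 : relabel σ B = relabel σ A + relabel σ (B - A) := by
    rw [← relabel_add, add_tsub_cancel_of_le h]
  rw [h1, add_tsub_cancel_left]

theorem verts_relabel (σ : Equiv.Perm α) (H : MHG α) :
    verts (relabel σ H) = (verts H).image σ := verts_map H σ

theorem card_relabel (σ : Equiv.Perm α) (H : MHG α) :
    Multiset.card (relabel σ H) = Multiset.card H := Multiset.card_map _ _

theorem disjoint_relabel (σ : Equiv.Perm α) {A B : MHG α} (h : Disjoint (verts A) (verts B)) :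
    Disjoint (verts (relabel σ A)) (verts (relabel σ B)) := by
  rw [verts_relabel, verts_relabel]
  exact (Finset.disjoint_image σ.injective).2 h

theorem Conn.relabel (σ : Equiv.Perm α) {H : MHG α} (h : Conn H) : Conn (relabel σ H) := by
  refine ⟨fun h0 => h.1 ?_, ?_⟩
  · rw [← relabel_inv_relabel σ H, h0, relabel_zero]
  · intro H₁ H₂ h12 hd
    have h3 : H = Veblen.relabel σ⁻¹ H₁ + Veblen.relabel σ⁻¹ H₂ := by
      rw [← relabel_add, ← h12, relabel_inv_relabel]
    rcases h.2 _ _ h3 (disjoint_relabel σ⁻¹ hd) with h4 | h4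
    · left; rw [← relabel_relabel_inv σ H₁, h4, relabel_zero]
    · right; rw [← relabel_relabel_inv σ H₂, h4, relabel_zero]

theorem mem_comps_relabel (σ : Equiv.Perm α) {H G : MHG α} (h : G ∈ comps H) :
    relabel σ G ∈ comps (relabel σ H) := by
  obtain ⟨h1, h2, h3⟩ := mem_comps.1 h
  refine mem_comps.2 ⟨relabel_le σ h1, h2.relabel σ, ?_⟩
  rw [← relabel_sub σ h1]
  exact disjoint_relabel σ h3

theorem comps_relabel (σ : Equiv.Perm α) (H : MHG α) :
    comps (relabel σ H) = (comps H).image (relabel σ) := by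
  ext G
  rw [mem_image]
  constructor
  · intro h
    refine ⟨relabel σ⁻¹ G, ?_, relabel_relabel_inv σ G⟩
    have := mem_comps_relabel σ⁻¹ h
    rwa [relabel_inv_relabel] at this
  · rintro ⟨G', h, rfl⟩
    exact mem_comps_relabel σ h

theorem deg_relabel (σ : Equiv.Perm α) (H : MHG α) (v : α) :
    deg (relabel σ H) (σ v) = deg H v := by
  unfold deg relabel
  rw [Multiset.countP_map, ← Multiset.countP_eq_card_filter]
  congr 1
  funext e
  simp

theorem IsVeblen.relabel {k : ℕ} (σ : Equiv.Perm α) {H : MHG α} (h : IsVeblen k H) :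
    IsVeblen k (relabel σ H) := by
  refine ⟨fun e he => ?_, fun v => ?_⟩
  · obtain ⟨e', he', rfl⟩ := Multiset.mem_map.1 he
    rw [Finset.card_image_of_injective _ σ.injective]
    exact h.1 e' he'
  · have := deg_relabel σ H (σ⁻¹ v)
    have h0 : σ (σ⁻¹ v) = v := σ.apply_symm_apply v
    rw [h0] at this
    rw [this]
    exact h.2 _

end

theorem VH_iso_iff {k d N : ℕ} (H H' : VH k d N) :
    (isoSetoid k d N).r H H' ↔ ∃ σ : Equiv.Perm (Fin N), relabel σ H.toMHG = H'.toMHG := by
  constructor
  · rintro ⟨f, hf, hmap⟩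
    have hu : verts H.toMHG = univ := H.2.2
    rw [hu, Finset.coe_univ, Set.injOn_univ] at hf
    exact ⟨Equiv.ofBijective f (Finite.injective_iff_bijective.1 hf), hmap⟩
  · rintro ⟨σ, hσ⟩
    exact ⟨σ, σ.injective.injOn, hσ⟩

/-- relabelling in `VH` -/
def VH.relabel {k d N : ℕ} (σ : Equiv.Perm (Fin N)) (H : VH k d N) : VH k d N :=
  ⟨⟨Veblen.relabel σ H.toMHG, (card_relabel σ _).trans H.1.2⟩, H.2.1.relabel σ, by
    have h : verts (Veblen.relabel σ H.toMHG) = univ := by
      rw [verts_relabel]
      have : verts H.toMHG = univ := H.2.2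
      rw [this]
      exact Finset.image_univ_of_surjective σ.surjective
    exact h⟩

theorem VH.ext_toMHG {k d N : ℕ} {H H' : VH k d N} (h : H.toMHG = H'.toMHG) : H = H' :=
  Subtype.ext (Subtype.ext h)

theorem VH.relabel_toMHG {k d N : ℕ} (σ : Equiv.Perm (Fin N)) (H : VH k d N) :
    (VH.relabel σ H).toMHG = Veblen.relabel σ H.toMHG := rfl

open Classical in
theorem class_card {k d N : ℕ} (x : VH k d N) :
    (univ.filter (fun y : VH k d N => (Quotient.mk (isoSetoid k d N) y) = Quotient.mk _ x)).card *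
      autCard x.toMHG = N.factorial := by
  have hperm : Fintype.card (Equiv.Perm (Fin N)) = N.factorial := by
    rw [Fintype.card_perm, Fintype.card_fin]
  have hmaps : ∀ σ ∈ (univ : Finset (Equiv.Perm (Fin N))), VH.relabel σ x ∈
      (univ.filter (fun y : VH k d N => (Quotient.mk (isoSetoid k d N) y) = Quotient.mk _ x)) := by
    intro σ _
    rw [mem_filter]
    refine ⟨mem_univ _, Quotient.sound' ?_⟩
    exact (isoSetoid k d N).symm ((VH_iso_iff x _).2 ⟨σ, rfl⟩)
  have h1 := Finset.card_eq_sum_card_fiberwise hmaps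
  rw [Finset.card_univ, hperm] at h1
  rw [h1, Finset.sum_const_nat (m := autCard x.toMHG)]
  intro y hy
  rw [mem_filter] at hy
  have hxy : (isoSetoid k d N).r x y := (isoSetoid k d N).symm (Quotient.exact hy.2)
  obtain ⟨τ, hτ⟩ := (VH_iso_iff x y).1 hxy
  unfold autCard
  rw [Fintype.card_subtype]
  apply Finset.card_bij (fun σ _ => τ⁻¹ * σ)
  · intro σ hσ
    rw [mem_filter] at hσ ⊢
    refine ⟨mem_univ _, ?_, ?_⟩
    · intro v hv
      exfalso
      apply hv
      have : verts x.toMHG = univ := x.2.2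
      rw [this]
      exact mem_univ _
    · have h2 : Veblen.relabel σ x.toMHG = y.toMHG := by rw [← hσ.2]; rfl
      change Veblen.relabel (τ⁻¹ * σ) x.toMHG = x.toMHG
      rw [← relabel_relabel, h2, ← hτ, relabel_inv_relabel]
  · intro σ _ σ' _ h
    exact mul_left_cancel h
  · intro ρ hρ
    rw [mem_filter] at hρ
    refine ⟨τ * ρ, ?_, by group⟩
    rw [mem_filter]
    refine ⟨mem_univ _, VH.ext_toMHG ?_⟩
    rw [VH.relabel_toMHG, ← relabel_relabel]
    have h3 : Veblen.relabel ρ x.toMHG = x.toMHG := hρ.2.2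
    rw [h3, hτ]

open Classical in
theorem class_sum {k d N : ℕ} (F : MHG (Fin N) → ℚ)
    (hF : ∀ (σ : Equiv.Perm (Fin N)) (x : VH k d N), F (relabel σ x.toMHG) = F x.toMHG) :
    ∑ q : Quotient (isoSetoid k d N), F q.out.toMHG / (autCard q.out.toMHG : ℚ) =
      (∑ H ∈ VS k (univ : Finset (Fin N)) d, F H) / (N.factorial : ℚ) := by
  have h1 : ∑ H ∈ VS k (univ : Finset (Fin N)) d, F H = ∑ x : VH k d N, F x.toMHG := by
    symm
    apply Finset.sum_bij (fun (x : VH k d N) _ => x.toMHG)
    · intro x _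
      exact mem_VS.2 ⟨x.1.2, x.2.1, x.2.2⟩
    · intro x _ y _ h
      exact VH.ext_toMHG h
    · intro H hH
      obtain ⟨h2, h3, h4⟩ := mem_VS.1 hH
      exact ⟨⟨⟨H, h2⟩, h3, h4⟩, mem_univ _, rfl⟩
    · intro x _
      rfl
  have h2 : ∑ x : VH k d N, F x.toMHG = ∑ q : Quotient (isoSetoid k d N),
      ∑ x ∈ univ.filter (fun x : VH k d N => Quotient.mk (isoSetoid k d N) x = q),
        F x.toMHG := by
    rw [Finset.sum_fiberwise]
  rw [h1, h2, Finset.sum_div]
  apply Finset.sum_congr rfl
  intro q _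
  have h3 : ∀ x ∈ univ.filter (fun x : VH k d N => Quotient.mk (isoSetoid k d N) x = q),
      F x.toMHG = F q.out.toMHG := by
    intro x hx
    rw [mem_filter] at hx
    have h4 : (isoSetoid k d N).r q.out x := by
      apply Quotient.exact
      rw [Quotient.out_eq, hx.2]
    obtain ⟨σ, hσ⟩ := (VH_iso_iff _ _).1 h4
    rw [← hσ, hF]
  rw [Finset.sum_congr rfl h3, Finset.sum_const, nsmul_eq_mul]
  have h5 := class_card q.out
  rw [Quotient.out_eq] at h5
  have h6 : (autCard q.out.toMHG : ℚ) ≠ 0 := by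
    intro h
    have h7 : autCard q.out.toMHG = 0 := by exact_mod_cast h
    rw [h7, mul_zero] at h5
    exact absurd h5.symm (Nat.factorial_ne_zero N)
  have h8 : (N.factorial : ℚ) ≠ 0 := by exact_mod_cast Nat.factorial_ne_zero N
  rw [div_eq_div_iff h6 h8, ← h5]
  push_cast
  ring

end Pool.Agent.Veblen
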