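import Pool.Agent.Veblen.Relabel

set_option autoImplicit false

namespace Pool.Agent.Veblen

open Finset

section mono

variable {α : Type} [LinearOrder α]

theorem count_ofFn {n : ℕ} (ρ : Fin n → α) (v : α) :
    (List.ofFn ρ).count v = (univ.filter (fun i => ρ i = v)).card := by
  rw [← Multiset.coe_count]
  have h : (↑(List.ofFn ρ) : Multiset α) = univ.val.map ρ := by
    rw [List.ofFn_eq_map]
    rfl
  rw [h, Multiset.count_map]
  simp only [Finset.card, Finset.filter_val]
  congr 1
  apply Multiset.filter_congr
  intro i _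
  exact ⟨fun h => h.symm, fun h => h.symm⟩

/-- A monotone function on `Fin n` is determined by its fibre sizes. -/
theorem mono_unique {n : ℕ} {ρ ρ' : Fin n → α} (h : Monotone ρ) (h' : Monotone ρ')
    (hc : ∀ v, (univ.filter (fun i => ρ i = v)).card = (univ.filter (fun i => ρ' i = v)).card) :
    ρ = ρ' := by
  apply List.ofFn_injective
  apply List.Perm.eq_of_sortedLE h.sortedLE_ofFn h'.sortedLE_ofFn
  rw [List.perm_iff_count]
  intro v
  rw [count_ofFn, count_ofFn, hc]

/-- Existence of a monotone function with given fibre sizes. -/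
theorem mono_exists [Fintype α] (n : ℕ) (c : α → ℕ) (hc : ∑ v, c v = n) :
    ∃ ρ : Fin n → α, Monotone ρ ∧ ∀ v, (univ.filter (fun i => ρ i = v)).card = c v := by
  classical
  let m : Multiset α := ∑ v, Multiset.replicate (c v) v
  have hcount : ∀ v, m.count v = c v := by
    intro v
    simp only [m]
    rw [Multiset.count_sum']
    rw [Finset.sum_eq_single v]
    · rw [Multiset.count_replicate_self]
    · intro u _ huv
      rw [Multiset.count_replicate, if_neg huv]
    · intro h; exact absurd (mem_univ v) h
  have hcard : Multiset.card m = n := by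
    simp only [m]
    rw [Multiset.card_sum]
    simp only [Multiset.card_replicate]
    exact hc
  let l : List α := m.sort
  have hl : l.length = n := by rw [Multiset.length_sort, hcard]
  subst hl
  refine ⟨l.get, ?_, ?_⟩
  · have h1 : (List.ofFn l.get).SortedLE := by
      rw [List.ofFn_get]
      exact (Multiset.pairwise_sort m (· ≤ ·)).sortedLE
    exact List.sortedLE_ofFn_iff.1 h1
  · intro v
    rw [← count_ofFn, List.ofFn_get, ← Multiset.coe_count, Multiset.sort_eq, hcount]

end mono

section eul

variable {α : Type} [LinearOrder α] [Fintype α]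

/-- number of stars rooted at `v` -/
def rc {m : ℕ} (R : Fin m → Finset α × α) (v : α) : ℕ :=
  (univ.filter fun i => (R i).2 = v).card

theorem indeg_eq {m : ℕ} (R : Fin m → Finset α × α) (v : α) :
    indeg R v = (univ.filter fun i => v ∈ (R i).1 ∧ (R i).2 ≠ v).card := by
  classical
  unfold indeg arc
  rw [← Finset.card_biUnion]
  · congr 1
    ext i
    simp only [mem_biUnion, mem_univ, true_and, mem_filter]
    constructor
    · rintro ⟨u, h1, h2, h3⟩
      exact ⟨h2, by rw [h1]; exact Ne.symm h3⟩
    · rintro ⟨h1, h2⟩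
      exact ⟨(R i).2, rfl, h1, Ne.symm h2⟩
  · intro a _ b _ hab
    rw [Function.onFun, Finset.disjoint_left]
    intro i hi hi'
    rw [mem_filter] at hi hi'
    exact hab (hi.2.1.symm.trans hi'.2.1)

theorem outdeg_eq {k m : ℕ} (R : Fin m → Finset α × α) (hk : ∀ i, (R i).1.card = k)
    (hmem : ∀ i, (R i).2 ∈ (R i).1) (u : α) :
    outdeg R u = (k - 1) * rc R u := by
  classical
  unfold outdeg arc rc
  have h1 : ∀ v : α, (univ.filter fun i => (R i).2 = u ∧ v ∈ (R i).1 ∧ v ≠ u).card =
      ∑ i ∈ univ.filter (fun i => (R i).2 = u), if v ∈ (R i).1.erase u then 1 else 0 := by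
    intro v
    rw [Finset.card_filter, Finset.sum_filter]
    apply Finset.sum_congr rfl
    intro i _
    by_cases h : (R i).2 = u
    · simp [h, and_comm]
    · simp [h]
  simp only [h1]
  rw [Finset.sum_comm]
  have h2 : ∀ i ∈ univ.filter (fun i => (R i).2 = u),
      (∑ v : α, if v ∈ (R i).1.erase u then 1 else 0) = k - 1 := by
    intro i hi
    rw [mem_filter] at hi
    rw [Finset.sum_ite_mem, Finset.univ_inter, Finset.sum_const, smul_eq_mul, mul_one,
      Finset.card_erase_of_mem (by rw [← hi.2]; exact hmem i), hk]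
  rw [Finset.sum_congr rfl h2, Finset.sum_const, smul_eq_mul, mul_comm]

theorem deg_eq_of_rooting {H : MHG α} {R : Fin (Multiset.card H) → Finset α × α}
    (hR : R ∈ rootings H) (v : α) : deg H v = indeg R v + rc R v := by
  classical
  unfold rootings at hR
  rw [mem_filter] at hR
  obtain ⟨-, h1, h2, -⟩ := hR
  have h3 : deg H v = (univ.filter fun i => v ∈ (R i).1).card := by
    conv_lhs => rw [← h1]
    unfold deg
    rw [Multiset.countP_map]
    rfl
  rw [h3, indeg_eq]
  unfold rc
  rw [← Finset.card_union_of_disjoint]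
  · congr 1
    ext i
    simp only [mem_filter, mem_univ, true_and, mem_union]
    constructor
    · intro h
      by_cases h' : (R i).2 = v
      · exact Or.inr h'
      · exact Or.inl ⟨h, h'⟩
    · rintro (h | h)
      · exact h.1
      · rw [← h]; exact h2 i
  · rw [Finset.disjoint_left]
    intro i hi hi'
    rw [mem_filter] at hi hi'
    exact hi.2.2 hi'.2

theorem eulerian_iff {H : MHG α} (hH : ∀ e ∈ H, e.card = 3)
    {R : Fin (Multiset.card H) → Finset α × α} (hR : R ∈ rootings H) :
    IsEulerian R ↔ ∀ v, 3 * rc R v = deg H v := by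
  have hR' := hR
  unfold rootings at hR'
  rw [mem_filter] at hR'
  obtain ⟨-, h1, h2, -⟩ := hR'
  have hcard : ∀ i, (R i).1.card = 3 := by
    intro i
    apply hH
    rw [← h1]
    exact Multiset.mem_map_of_mem _ (mem_univ i)
  unfold IsEulerian
  apply forall_congr'
  intro v
  rw [outdeg_eq R hcard h2, deg_eq_of_rooting hR v]
  omega

/-- Edge sequences compatible with a root sequence. -/
def Compat (H : MHG α) {n : ℕ} (ρ : Fin n → α) (ε : Fin n → Finset α) : Prop :=
  (univ.val.map ε) = H ∧ ∀ i, ρ i ∈ ε i

open Classical in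
/-- If all Eulerian rootings have the same weight `c`, then `C_H` is `c` times the number of
compatible edge sequences. -/
theorem Cconn_eq {H : MHG α} (hH : ∀ e ∈ H, e.card = 3)
    (ρ : Fin (Multiset.card H) → α) (hρ : Monotone ρ)
    (hρc : ∀ v, 3 * (univ.filter (fun i => ρ i = v)).card = deg H v) (c : ℚ)
    (hc : ∀ ε, Compat H ρ ε →
      (arbs (verts H) (arc (fun i => (ε i, ρ i))) : ℚ) /
        ∏ v ∈ verts H, (indeg (fun i => (ε i, ρ i)) v : ℚ) = c) :
    Cconn H = ((univ.filter (fun ε : Fin (Multiset.card H) → Finset α =>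
      Compat H ρ ε)).card : ℚ) * c := by
  unfold Cconn
  rw [← nsmul_eq_mul, ← Finset.sum_const]
  symm
  apply Finset.sum_bij (fun ε _ => fun i => (ε i, ρ i))
  · intro ε hε
    rw [mem_filter] at hε
    obtain ⟨-, h1, h2⟩ := hε
    have hR : (fun i => (ε i, ρ i)) ∈ rootings H := by
      unfold rootings
      rw [mem_filter]
      exact ⟨mem_univ _, h1, h2, hρ⟩
    rw [mem_filter]
    refine ⟨hR, (eulerian_iff hH hR).2 ?_⟩
    intro v
    exact hρc v
  · intro ε _ ε' _ h
    funext i
    exact congrArg Prod.fst (congrFun h i)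
  · intro R hR
    rw [mem_filter] at hR
    obtain ⟨hR1, hR2⟩ := hR
    have h3 := (eulerian_iff hH hR1).1 hR2
    have hR' := hR1
    unfold rootings at hR'
    rw [mem_filter] at hR'
    obtain ⟨-, h4, h5, h6⟩ := hR'
    have hρ' : (fun i => (R i).2) = ρ := by
      apply mono_unique h6 hρ
      intro v
      have h7 := h3 v
      have h8 := hρc v
      unfold rc at h7
      omega
    refine ⟨fun i => (R i).1, ?_, ?_⟩
    · rw [mem_filter]
      refine ⟨mem_univ _, h4, ?_⟩
      intro i
      rw [← hρ']
      exact h5 i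
    · funext i
      rw [← hρ']
  · intro ε hε
    rw [mem_filter] at hε
    exact (hc ε hε.2).symm

end eul

end Pool.Agent.Veblen
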