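import Pool.Agent.Veblen.Beta

set_option autoImplicit false

namespace Pool.Agent.Veblen

open Finset

section asum

variable {𝓗 : KGraph 3} {c₁ c₂ : ℕ}

theorem VS_zero {N : ℕ} (S : Finset (Fin N)) :
    VS 3 S 0 = if S = ∅ then {0} else ∅ := by
  ext H
  rw [mem_VS]
  constructor
  · rintro ⟨h1, -, h3⟩
    rw [Multiset.card_eq_zero] at h1
    subst h1
    rw [verts_zero] at h3
    rw [if_pos h3.symm]
    simp
  · intro h
    split_ifs at h with hS
    · rw [mem_singleton] at h
      subst h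
      refine ⟨rfl, ⟨by simp, fun v => by simp [deg]⟩, ?_⟩
      rw [verts_zero, hS]
    · simp at h

theorem Asum_zero {N : ℕ} (w : MHG (Fin N) → ℚ) (S : Finset (Fin N)) :
    Asum 3 w S 0 = if S = ∅ then 1 else 0 := by
  unfold Asum
  rw [VS_zero]
  split_ifs
  · rw [Finset.sum_singleton, comps_zero, Finset.prod_empty]
  · rw [Finset.sum_empty]

theorem Asum_card (h𝓗 : Good 𝓗 c₁ c₂) (d : ℕ) : ∀ {N : ℕ} (S : Finset (Fin N)),
    Asum 3 (wt 𝓗) S d = Asum 3 (wt 𝓗) (univ : Finset (Fin S.card)) d := by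
  induction d using Nat.strong_induction_on with
  | _ d ih =>
    intro N S
    rcases Nat.eq_zero_or_pos d with rfl | hd
    · rw [Asum_zero, Asum_zero]
      congr 1
      rw [eq_iff_iff, ← Finset.card_eq_zero, ← Finset.card_eq_zero (s := univ),
        Finset.card_univ, Fintype.card_fin]
    · have key : ∀ {N' : ℕ} (S' : Finset (Fin N')), S'.card = S.card →
          (d : ℚ) * Asum 3 (wt 𝓗) S' d = ∑ M ∈ range (S.card + 1), S.card.choose M •
            ∑ j ∈ range (d + 1), ((j : ℚ) * bt c₁ c₂ M j) *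
              Asum 3 (wt 𝓗) (univ : Finset (Fin (S.card - M))) (d - j) := by
        intro N' S' hS'
        rw [pointing (by norm_num : 0 < 3), ← hS']
        rw [← Finset.sum_powerset_apply_card (x := S') (fun M => ∑ j ∈ range (d + 1),
          ((j : ℚ) * bt c₁ c₂ M j) *
              Asum 3 (wt 𝓗) (univ : Finset (Fin (S'.card - M))) (d - j))]
        apply Finset.sum_congr rfl
        intro B hB
        apply Finset.sum_congr rfl
        intro j hj
        rw [← Finset.mul_sum, beta_eq h𝓗]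
        rcases Nat.eq_zero_or_pos j with rfl | hj0
        · simp
        · rw [ih (d - j) (by omega) (S' \ B), Finset.card_sdiff_of_subset (mem_powerset.1 hB)]
      have h1 := key S rfl
      have h2 := key (univ : Finset (Fin S.card)) (by rw [Finset.card_univ, Fintype.card_fin])
      have hd0 : (d : ℚ) ≠ 0 := by
        have : d ≠ 0 := by omega
        exact_mod_cast this
      exact mul_left_cancel₀ hd0 (h1.trans h2.symm)

/-- The weighted number of Veblen hypergraphs with vertex set `Fin n` and `d` edges. -/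
noncomputable def ff (𝓗 : KGraph 3) (d n : ℕ) : ℚ :=
  Asum 3 (wt 𝓗) (univ : Finset (Fin n)) d

theorem ff_rec (h𝓗 : Good 𝓗 c₁ c₂) (d n : ℕ) :
    (d : ℚ) * ff 𝓗 d n = ∑ M ∈ range (n + 1), (n.choose M : ℚ) *
      ∑ j ∈ range (d + 1), ((j : ℚ) * bt c₁ c₂ M j) * ff 𝓗 (d - j) (n - M) := by
  unfold ff
  rw [pointing (by norm_num : 0 < 3)]
  have h1 := Finset.sum_powerset_apply_card (x := (univ : Finset (Fin n)))
      (fun M => ∑ j ∈ range (d + 1), ((j : ℚ) * bt c₁ c₂ M j) *
        Asum 3 (wt 𝓗) (univ : Finset (Fin (n - M))) (d - j))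
  rw [Finset.card_univ, Fintype.card_fin] at h1
  simp only [nsmul_eq_mul] at h1
  rw [← h1]
  apply Finset.sum_congr rfl
  intro B hB
  apply Finset.sum_congr rfl
  intro j hj
  rw [← Finset.mul_sum, beta_eq h𝓗, Asum_card h𝓗 (d - j) (univ \ B),
    Finset.card_sdiff_of_subset (mem_powerset.1 hB), Finset.card_univ, Fintype.card_fin]

theorem ff_eq_zero (𝓗 : KGraph 3) {d n : ℕ} (h : 3 * d < n) : ff 𝓗 d n = 0 := by
  unfold ff Asum
  apply Finset.sum_eq_zero
  intro H hH
  exfalso
  obtain ⟨h1, h2, h3⟩ := mem_VS.1 hH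
  have h4 := card_verts_le h2.1
  rw [h3, h1, Finset.card_univ, Fintype.card_fin] at h4
  omega

open Polynomial in
/-- generating polynomial in the number of vertices -/
noncomputable def PP (𝓗 : KGraph 3) (d : ℕ) : ℚ[X] :=
  ∑ n ∈ range (3 * d + 1), monomial n (ff 𝓗 d n / (n.factorial : ℚ))

theorem PP_coeff (𝓗 : KGraph 3) (d n : ℕ) :
    (PP 𝓗 d).coeff n = ff 𝓗 d n / (n.factorial : ℚ) := by
  unfold PP
  rw [Polynomial.finsetSum_coeff]
  simp only [Polynomial.coeff_monomial]
  rw [Finset.sum_ite_eq']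
  split_ifs with h
  · rfl
  · rw [mem_range, not_lt] at h
    rw [ff_eq_zero 𝓗 (by omega), zero_div]

open Polynomial in
/-- generating polynomial of the connected ones -/
noncomputable def QQ (c₁ c₂ : ℕ) (j : ℕ) : ℚ[X] :=
  monomial 3 ((j : ℚ) * bt c₁ c₂ 3 j / ((3 : ℕ).factorial : ℚ)) +
    monomial 4 ((j : ℚ) * bt c₁ c₂ 4 j / ((4 : ℕ).factorial : ℚ))

theorem QQ_coeff (c₁ c₂ : ℕ) (j M : ℕ) :
    (QQ c₁ c₂ j).coeff M = (j : ℚ) * bt c₁ c₂ M j / (M.factorial : ℚ) := by
  unfold QQ
  rw [Polynomial.coeff_add, Polynomial.coeff_monomial, Polynomial.coeff_monomial]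
  by_cases h3 : M = 3
  · subst h3
    simp
  · by_cases h4 : M = 4
    · subst h4
      simp
    · rw [if_neg (Ne.symm h3), if_neg (Ne.symm h4)]
      have : bt c₁ c₂ M j = 0 := by
        unfold bt
        rw [if_neg h3, if_neg h4]
        simp
      rw [this]
      simp

theorem PP_rec (h𝓗 : Good 𝓗 c₁ c₂) (d : ℕ) :
    Polynomial.C (d : ℚ) * PP 𝓗 d = ∑ j ∈ range (d + 1), QQ c₁ c₂ j * PP 𝓗 (d - j) := by
  ext n
  rw [Polynomial.coeff_C_mul, PP_coeff, Polynomial.finsetSum_coeff]
  simp only [Polynomial.coeff_mul, QQ_coeff, PP_coeff]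
  rw [← mul_div_assoc, ff_rec h𝓗, Finset.sum_comm, Finset.sum_div]
  rw [Finset.Nat.sum_antidiagonal_eq_sum_range_succ_mk]
  apply Finset.sum_congr rfl
  intro M hM
  rw [mem_range] at hM
  simp only
  rw [Finset.mul_sum, Finset.sum_div]
  apply Finset.sum_congr rfl
  intro j _
  rw [Nat.choose_eq_factorial_div_factorial (by omega : M ≤ n),
    Nat.cast_div (Nat.factorial_mul_factorial_dvd_factorial (by omega : M ≤ n))
      (by exact_mod_cast Nat.mul_ne_zero (Nat.factorial_ne_zero _) (Nat.factorial_ne_zero _))]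
  have hn : (n.factorial : ℚ) ≠ 0 := by exact_mod_cast Nat.factorial_ne_zero n
  have hM' : (M.factorial : ℚ) ≠ 0 := by exact_mod_cast Nat.factorial_ne_zero M
  have hnM : ((n - M).factorial : ℚ) ≠ 0 := by exact_mod_cast Nat.factorial_ne_zero _
  push_cast
  field_simp

end asum

end Pool.Agent.Veblen
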