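import Pool.Agent.Veblen.Series

set_option autoImplicit false

namespace Pool.Agent.Veblen

open Finset

section

variable {𝓗 : KGraph 3} {c₁ c₂ : ℕ}

theorem coeffSum_eval (h𝓗 : Good 𝓗 c₁ c₂) (d : ℕ) :
    coeffSum 4 d 𝓗 = (PP 𝓗 d).eval 1 := by
  rw [coeffSum_eq h𝓗]
  unfold PP
  rw [Polynomial.eval_finsetSum]
  apply Finset.sum_congr rfl
  intro n _
  rw [Polynomial.eval_monomial, one_pow, mul_one]
  rfl

/-- connected contribution -/
noncomputable def qq (c₁ c₂ : ℕ) (j : ℕ) : ℚ := (QQ c₁ c₂ j).eval 1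

theorem coeffSum_rec (h𝓗 : Good 𝓗 c₁ c₂) (d : ℕ) :
    (d : ℚ) * coeffSum 4 d 𝓗 = ∑ j ∈ range (d + 1), qq c₁ c₂ j * coeffSum 4 (d - j) 𝓗 := by
  have h := congrArg (Polynomial.eval 1) (PP_rec h𝓗 d)
  rw [Polynomial.eval_mul, Polynomial.eval_C, Polynomial.eval_finsetSum] at h
  rw [coeffSum_eval h𝓗, h]
  apply Finset.sum_congr rfl
  intro j _
  rw [Polynomial.eval_mul, coeffSum_eval h𝓗]
  rfl

theorem coeffSum_zero (h𝓗 : Good 𝓗 c₁ c₂) : coeffSum 4 0 𝓗 = 1 := by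
  rw [coeffSum_eq h𝓗]
  rw [mul_zero, zero_add, Finset.sum_range_one, Asum_zero]
  rw [if_pos (Finset.univ_eq_empty)]
  simp

theorem qq_eq (j : ℕ) : qq c₁ c₂ j = (j : ℚ) * bt c₁ c₂ 3 j / 6 + (j : ℚ) * bt c₁ c₂ 4 j / 24 := by
  unfold qq QQ
  rw [Polynomial.eval_add, Polynomial.eval_monomial, Polynomial.eval_monomial]
  simp [Nat.factorial]

theorem qq_mul {m : ℕ} (hm : 1 ≤ m) : qq c₁ c₂ (3 * m) =
    -18 * c₁ - 18 * c₂ * ∑ i ∈ Ico 1 m, ((2 * m).choose (2 * i) : ℚ) := by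
  have hm3 : 3 * m / 3 = m := by omega
  have hc : 3 ∣ 3 * m ∧ 0 < 3 * m := ⟨dvd_mul_right 3 m, by omega⟩
  have hb3 : bt c₁ c₂ 3 (3 * m) = -36 * c₁ / m := by
    unfold bt
    rw [if_pos hc, if_pos rfl, hm3]
  have hb4 : bt c₁ c₂ 4 (3 * m) =
      6 * ∑ i ∈ Ico 1 m, -24 * (c₂ : ℚ) * ((2 * m).choose (2 * i) : ℚ) / (m : ℚ) := by
    unfold bt
    rw [if_pos hc, if_neg (by norm_num), if_pos rfl, hm3]
  rw [qq_eq, hb3, hb4]
  have hm0 : (m : ℚ) ≠ 0 := by
    have : m ≠ 0 := by omega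
    exact_mod_cast this
  have h1 : ∑ i ∈ Ico 1 m, -24 * (c₂ : ℚ) * ((2 * m).choose (2 * i) : ℚ) / (m : ℚ) =
      -24 * (c₂ : ℚ) / m * ∑ i ∈ Ico 1 m, ((2 * m).choose (2 * i) : ℚ) := by
    rw [Finset.mul_sum]
    apply Finset.sum_congr rfl
    intro i _
    ring
  rw [h1]
  push_cast
  field_simp
  ring

theorem qq_zero {j : ℕ} (hj : ¬ (3 ∣ j ∧ 0 < j)) : qq c₁ c₂ j = 0 := by
  rw [qq_eq]
  unfold bt
  rw [if_neg hj, if_neg hj]
  simp

theorem sum_even_choose {m : ℕ} (hm : 1 ≤ m) :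
    ∑ i ∈ range (m + 1), (2 * m).choose (2 * i) = 2 ^ (2 * m - 1) := by
  obtain ⟨n, rfl⟩ : ∃ n, m = n + 1 := ⟨m - 1, by omega⟩
  rw [Finset.sum_range_succ']
  have h1 : ∀ i, (2 * (n + 1)).choose (2 * (i + 1)) =
      (2 * n + 1).choose (2 * i + 1) + (2 * n + 1).choose (2 * i + 2) := by
    intro i
    rw [show 2 * (n + 1) = (2 * n + 1) + 1 by ring, show 2 * (i + 1) = (2 * i + 1) + 1 by ring,
      Nat.choose_succ_succ]
  simp only [h1]
  have h2 : ∀ N, ∑ t ∈ range (2 * N + 1), (2 * n + 1).choose t =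
      ∑ i ∈ range N, ((2 * n + 1).choose (2 * i + 1) + (2 * n + 1).choose (2 * i + 2)) + 1 := by
    intro N
    induction N with
    | zero => simp
    | succ N ih =>
      rw [show 2 * (N + 1) + 1 = (2 * N + 1) + 1 + 1 by ring, Finset.sum_range_succ,
        Finset.sum_range_succ, ih, Finset.sum_range_succ]
      ring
  have h3 := h2 (n + 1)
  have h4 : ∑ t ∈ range (2 * (n + 1) + 1), (2 * n + 1).choose t = 2 ^ (2 * n + 1) := by
    rw [Finset.sum_range_succ, show 2 * (n + 1) = 2 * n + 1 + 1 by ring,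
      Nat.sum_range_choose, Nat.choose_eq_zero_of_lt (by omega)]
    rfl
  rw [mul_zero, Nat.choose_zero_right, show 2 * (n + 1) - 1 = 2 * n + 1 by omega]
  omega

theorem qq_H {m : ℕ} (hm : 1 ≤ m) : qq 1 0 (3 * m) = -18 := by
  rw [qq_mul hm]
  push_cast
  ring

theorem qq_G {m : ℕ} (hm : 1 ≤ m) : qq 2 1 (3 * m) = -9 * 4 ^ m := by
  rw [qq_mul hm]
  have h1 := sum_even_choose hm
  rw [Finset.sum_range_succ, Finset.range_eq_Ico, Finset.sum_eq_sum_Ico_succ_bot (by omega)] at h1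
  rw [mul_zero, Nat.choose_zero_right, Nat.choose_self] at h1
  have h2 : 2 * 2 ^ (2 * m - 1) = 4 ^ m := by
    rw [← pow_succ', show 2 * m - 1 + 1 = 2 * m by omega, pow_mul]
    norm_num
  have h3 : 2 * (1 + ∑ i ∈ Ico 1 m, (2 * m).choose (2 * i) + 1) = 4 ^ m := by
    rw [← h2, ← h1]
  have h4 : (2 : ℚ) * (1 + ∑ i ∈ Ico 1 m, ((2 * m).choose (2 * i) : ℚ) + 1) = 4 ^ m := by
    exact_mod_cast h3
  push_cast
  linarith

/-- The linear recursion. -/
theorem lin_rec (s q : ℕ → ℚ) (κ μ : ℚ)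
    (hrec : ∀ d : ℕ, (d : ℚ) * s d = ∑ j ∈ range (d + 1), q j * s (d - j))
    (hq0 : ∀ j, ¬ (3 ∣ j ∧ 0 < j) → q j = 0) (hq : ∀ m, 1 ≤ m → q (3 * m) = -κ * μ ^ m) :
    s 1 = 0 ∧ s 2 = 0 ∧ ∀ d : ℕ, ((d : ℚ) + 3) * s (d + 3) = μ * ((d : ℚ) - κ) * s d := by
  have q0 : q 0 = 0 := hq0 0 (by omega)
  have q1 : q 1 = 0 := hq0 1 (by omega)
  have q2 : q 2 = 0 := hq0 2 (by omega)
  have q3 : q 3 = -κ * μ := by
    have := hq 1 le_rfl
    simpa using this
  have hstep : ∀ j, 1 ≤ j → q (j + 3) = μ * q j := by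
    intro j hj
    by_cases h : 3 ∣ j
    · obtain ⟨m, rfl⟩ := h
      rw [show 3 * m + 3 = 3 * (m + 1) by ring, hq (m + 1) (by omega), hq m (by omega)]
      ring
    · rw [hq0 j (by tauto), hq0 (j + 3) (by omega)]
      ring
  refine ⟨?_, ?_, ?_⟩
  · have h := hrec 1
    rw [Finset.sum_range_succ, Finset.sum_range_one, q0, q1] at h
    simpa using h
  · have h := hrec 2
    rw [Finset.sum_range_succ, Finset.sum_range_succ, Finset.sum_range_one, q0, q1, q2] at h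
    simpa using h
  · intro d
    have h1 := hrec (d + 3)
    rw [show d + 3 + 1 = (d + 1) + 1 + 1 + 1 by ring, Finset.sum_range_succ',
      Finset.sum_range_succ', Finset.sum_range_succ'] at h1
    simp only [zero_add] at h1
    have h2 : ∀ i ∈ range (d + 1), q (i + 1 + 1 + 1) * s (d + 3 - (i + 1 + 1 + 1)) =
        (if i = 0 then -κ * μ * s d else 0) + μ * (q i * s (d - i)) := by
      intro i hi
      rw [show i + 1 + 1 + 1 = i + 3 by ring, show d + 3 - (i + 3) = d - i by omega]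
      rcases Nat.eq_zero_or_pos i with rfl | hi0
      · rw [if_pos rfl, zero_add, q3, q0]
        simp
      · rw [if_neg (by omega), hstep i hi0]
        ring
    rw [Finset.sum_congr rfl h2, Finset.sum_add_distrib, ← Finset.mul_sum, ← hrec d,
      Finset.sum_ite_eq', if_pos (by simp), q0, q1] at h1
    rw [show (1 : ℕ) + 1 = 2 by rfl, q2] at h1
    push_cast at h1
    linarith

end

theorem H_rec : coeffSum 4 1 H0 = 0 ∧ coeffSum 4 2 H0 = 0 ∧
    ∀ d : ℕ, ((d : ℚ) + 3) * coeffSum 4 (d + 3) H0 = ((d : ℚ) - 18) * coeffSum 4 d H0 := by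
  have h := lin_rec (fun d => coeffSum 4 d H0) (qq 1 0) 18 1 (coeffSum_rec good_H0)
    (fun _ hj => qq_zero hj) (fun _ hm => by rw [qq_H hm]; simp)
  refine ⟨h.1, h.2.1, fun d => ?_⟩
  have := h.2.2 d
  simpa using this

theorem G_rec : coeffSum 4 1 G0 = 0 ∧ coeffSum 4 2 G0 = 0 ∧
    ∀ d : ℕ, ((d : ℚ) + 3) * coeffSum 4 (d + 3) G0 = 4 * ((d : ℚ) - 9) * coeffSum 4 d G0 :=
  lin_rec (fun d => coeffSum 4 d G0) (qq 2 1) 9 4 (coeffSum_rec good_G0)
    (fun _ hj => qq_zero hj) (fun _ hm => qq_G hm)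

/-- Vanishing beyond `3 t`. -/
theorem vanish (s : ℕ → ℚ) (μ : ℚ) (t : ℕ) (h1 : s 1 = 0) (h2 : s 2 = 0)
    (h : ∀ d : ℕ, ((d : ℚ) + 3) * s (d + 3) = μ * ((d : ℚ) - (3 * t : ℕ)) * s d) :
    (∀ d, ¬ 3 ∣ d → s d = 0) ∧ ∀ d > 3 * t, s d = 0 := by
  have hnd : ∀ d, ¬ 3 ∣ d → s d = 0 := by
    intro d
    induction d using Nat.strong_induction_on with
    | _ d ih =>
      intro hd
      rcases Nat.lt_or_ge d 3 with h3 | h3
      · interval_cases d
        · omega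
        · exact h1
        · exact h2
      · obtain ⟨e, rfl⟩ : ∃ e, d = e + 3 := ⟨d - 3, by omega⟩
        have h4 := h e
        rw [ih e (by omega) (by omega), mul_zero] at h4
        rcases mul_eq_zero.1 h4 with h5 | h5
        · exfalso
          have : (0 : ℚ) ≤ e := Nat.cast_nonneg e
          linarith
        · exact h5
  refine ⟨hnd, ?_⟩
  intro d
  induction d using Nat.strong_induction_on with
  | _ d ih =>
    intro hd
    by_cases h3 : 3 ∣ d
    · obtain ⟨e, rfl⟩ : ∃ e, d = e + 3 := ⟨d - 3, by omega⟩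
      have h4 := h e
      have h6 : μ * ((e : ℚ) - (3 * t : ℕ)) * s e = 0 := by
        rcases Nat.lt_or_ge (3 * t) e with h5 | h5
        · rw [ih e (by omega) h5, mul_zero]
        · have : e = 3 * t := by omega
          rw [this]
          ring
      rw [h6] at h4
      rcases mul_eq_zero.1 h4 with h5 | h5
      · exfalso
        have : (0 : ℚ) ≤ e := Nat.cast_nonneg e
        linarith
      · exact h5
    · exact hnd d h3

theorem H_18 : coeffSum 4 18 H0 = 1 := by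
  obtain ⟨-, -, h⟩ := H_rec
  have h0 := coeffSum_zero good_H0
  have h3 := h 0
  have h6 := h 3
  have h9 := h 6
  have h12 := h 9
  have h15 := h 12
  have h18 := h 15
  norm_num at h3 h6 h9 h12 h15 h18
  rw [h0] at h3
  have e3 : coeffSum 4 3 H0 = -6 := by linarith
  rw [e3] at h6
  have e6 : coeffSum 4 6 H0 = 15 := by linarith
  rw [e6] at h9
  have e9 : coeffSum 4 9 H0 = -20 := by linarith
  rw [e9] at h12
  have e12 : coeffSum 4 12 H0 = 15 := by linarith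
  rw [e12] at h15
  have e15 : coeffSum 4 15 H0 = -6 := by linarith
  rw [e15] at h18
  linarith

theorem G_9 : coeffSum 4 9 G0 = -64 := by
  obtain ⟨-, -, h⟩ := G_rec
  have h0 := coeffSum_zero good_G0
  have h3 := h 0
  have h6 := h 3
  have h9 := h 6
  norm_num at h3 h6 h9
  rw [h0] at h3
  have e3 : coeffSum 4 3 G0 = -12 := by linarith
  rw [e3] at h6
  have e6 : coeffSum 4 6 G0 = 48 := by linarith
  rw [e6] at h9
  linarith

theorem th_eq {k : ℕ} (v : ℕ) (𝓗 : KGraph k) (T : ℕ) (h1 : ∀ d > T, coeffSum v d 𝓗 = 0)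
    (h2 : coeffSum v T 𝓗 ≠ 0) : Th v 𝓗 = T := by
  unfold Th
  apply le_antisymm
  · exact Nat.sInf_le h1
  · have hne : {T' : ℕ | ∀ d > T', coeffSum v d 𝓗 = 0}.Nonempty := ⟨T, h1⟩
    by_contra hlt
    rw [not_le] at hlt
    exact h2 (Nat.sInf_mem hne T hlt)

theorem Th_H0 : Th 4 H0 = 18 := by
  obtain ⟨h1, h2, h3⟩ := H_rec
  apply th_eq
  · apply (vanish (fun d => coeffSum 4 d H0) 1 6 h1 h2 ?_).2
    intro d
    have := h3 d
    push_cast
    rw [one_mul]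

    exact this
  · rw [H_18]; norm_num

theorem Th_G0 : Th 4 G0 = 9 := by
  obtain ⟨h1, h2, h3⟩ := G_rec
  apply th_eq
  · apply (vanish (fun d => coeffSum 4 d G0) 4 3 h1 h2 ?_).2
    intro d
    have := h3 d
    push_cast

    exact this
  · rw [G_9]; norm_num

end Pool.Agent.Veblen
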