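import Pool.Agent.Veblen.Arbs

set_option autoImplicit false

namespace Pool.Agent.Veblen

open Finset

section rho

variable {α : Type} [LinearOrder α] [Fintype α]

omit [Fintype α] in
theorem deg_cons (a : Finset α) (H : MHG α) (v : α) :
    deg (a ::ₘ H) v = deg H v + if v ∈ a then 1 else 0 := by
  unfold deg
  rw [Multiset.countP_cons]

theorem sum_deg (H : MHG α) (k : ℕ) (hH : ∀ e ∈ H, e.card = k) :
    ∑ v, deg H v = k * Multiset.card H := by
  induction H using Multiset.induction_on with
  | empty => simp [deg]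
  | cons a H ih =>
    simp only [deg_cons]
    rw [Finset.sum_add_distrib, ih (fun e he => hH e (Multiset.mem_cons_of_mem he)),
      Multiset.card_cons, Finset.sum_ite_mem, Finset.univ_inter, Finset.sum_const,
      hH a (Multiset.mem_cons_self a H)]
    simp
    ring

/-- The common root sequence of the Eulerian rootings. -/
theorem exists_rho {H : MHG α} (hH : IsVeblen 3 H) :
    ∃ ρ : Fin (Multiset.card H) → α, Monotone ρ ∧
      ∀ v, 3 * (univ.filter (fun i => ρ i = v)).card = deg H v := by
  have hs : ∑ v, deg H v / 3 = Multiset.card H := by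
    have h1 := sum_deg H 3 hH.1
    have h2 : ∑ v, deg H v = ∑ v, 3 * (deg H v / 3) := by
      apply Finset.sum_congr rfl
      intro v _
      exact (Nat.mul_div_cancel' (hH.2 v)).symm
    rw [h2, ← Finset.mul_sum] at h1
    omega
  obtain ⟨ρ, h1, h2⟩ := mono_exists (Multiset.card H) (fun v => deg H v / 3) hs
  refine ⟨ρ, h1, fun v => ?_⟩
  rw [h2 v]
  exact Nat.mul_div_cancel' (hH.2 v)

end rho

section equivs

variable {α : Type} [LinearOrder α]

theorem exists_equiv3 (S : Finset α) (r s t : α) (h1 : r ≠ s) (h2 : r ≠ t) (h3 : s ≠ t)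
    (hS : S = {r, s, t}) :
    ∃ e : Fin 3 ≃ {v // v ∈ S}, (e 0 : α) = r ∧ (e 1 : α) = s ∧ (e 2 : α) = t := by
  subst hS
  have hmem : ∀ i : Fin 3, ![r, s, t] i ∈ ({r, s, t} : Finset α) := by
    intro i
    fin_cases i <;> simp
  let f : Fin 3 → {v // v ∈ ({r, s, t} : Finset α)} := fun i => ⟨![r, s, t] i, hmem i⟩
  have hf : Function.Bijective f := by
    constructor
    · intro i j hij
      have h : ![r, s, t] i = ![r, s, t] j := congrArg Subtype.val hij
      fin_cases i <;> fin_cases j <;> simp_all
    · rintro ⟨v, hv⟩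
      simp only [mem_insert, mem_singleton] at hv
      rcases hv with rfl | rfl | rfl
      · exact ⟨0, rfl⟩
      · exact ⟨1, rfl⟩
      · exact ⟨2, rfl⟩
  exact ⟨Equiv.ofBijective f hf, rfl, rfl, rfl⟩

theorem exists_equiv4 (S : Finset α) (r s t u : α) (h1 : r ≠ s) (h2 : r ≠ t) (h3 : r ≠ u)
    (h4 : s ≠ t) (h5 : s ≠ u) (h6 : t ≠ u) (hS : S = {r, s, t, u}) :
    ∃ e : Fin 4 ≃ {v // v ∈ S}, (e 0 : α) = r ∧ (e 1 : α) = s ∧ (e 2 : α) = t ∧
      (e 3 : α) = u := by
  subst hS
  have hmem : ∀ i : Fin 4, ![r, s, t, u] i ∈ ({r, s, t, u} : Finset α) := by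
    intro i
    fin_cases i <;> simp
  let f : Fin 4 → {v // v ∈ ({r, s, t, u} : Finset α)} := fun i => ⟨![r, s, t, u] i, hmem i⟩
  have hf : Function.Bijective f := by
    constructor
    · intro i j hij
      have h : ![r, s, t, u] i = ![r, s, t, u] j := congrArg Subtype.val hij
      fin_cases i <;> fin_cases j <;> simp_all
    · rintro ⟨v, hv⟩
      simp only [mem_insert, mem_singleton] at hv
      rcases hv with rfl | rfl | rfl | rfl
      · exact ⟨0, rfl⟩
      · exact ⟨1, rfl⟩
      · exact ⟨2, rfl⟩
      · exact ⟨3, rfl⟩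
  exact ⟨Equiv.ofBijective f hf, rfl, rfl, rfl, rfl⟩

theorem exists_least (S : Finset α) (h : S.Nonempty) : ∃ r ∈ S, IsLeast (S : Set α) r :=
  ⟨S.min' h, S.min'_mem h, S.isLeast_min' h⟩

/-- All arcs have multiplicity `m`. -/
theorem arbs_const3 (S : Finset α) (x y z : α) (hxy : x ≠ y) (hxz : x ≠ z) (hyz : y ≠ z)
    (hS : S = {x, y, z}) (a : α → α → ℕ) (m : ℕ)
    (ha : ∀ u ∈ S, ∀ v ∈ S, u ≠ v → a u v = m) : arbs S a = 3 * m ^ 2 := by
  obtain ⟨r, hr, hrl⟩ := exists_least S ⟨x, by rw [hS]; simp⟩
  have key : ∀ s t : α, r ≠ s → r ≠ t → s ≠ t → S = {r, s, t} → arbs S a = 3 * m ^ 2 := by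
    intro s t h1 h2 h3 h4
    obtain ⟨e, he0, he1, he2⟩ := exists_equiv3 S r s t h1 h2 h3 h4
    have hs : s ∈ S := by rw [h4]; simp
    have ht : t ∈ S := by rw [h4]; simp
    rw [arbs3 S e (by rw [he0]; exact hrl), he0, he1, he2, ha s hs r hr h1.symm,
      ha t ht r hr h2.symm, ha t ht s hs h3.symm, ha s hs t ht h3]
    ring
  rw [hS] at hr
  simp only [mem_insert, mem_singleton] at hr
  rcases hr with rfl | rfl | rfl
  · exact key y z hxy hxz hyz hS
  · apply key x z hxy.symm hyz hxz
    rw [hS]; ext v; simp; tauto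
  · apply key x y hxz.symm hyz.symm hxy
    rw [hS]; ext v; simp; tauto

/-- The arcs of an Eulerian rooting of a Veblen hypergraph on two edges. -/
theorem arbs_two (S : Finset α) (x x' y z : α) (h1 : x ≠ x') (h2 : x ≠ y) (h3 : x ≠ z)
    (h4 : x' ≠ y) (h5 : x' ≠ z) (h6 : y ≠ z) (hS : S = {x, x', y, z}) (a : α → α → ℕ)
    (i j p q p' q' : ℕ) (axx' : a x x' = 0) (ax'x : a x' x = 0) (axy : a x y = i)
    (axz : a x z = i) (ax'y : a x' y = j) (ax'z : a x' z = j) (ayx : a y x = p)
    (ayx' : a y x' = q) (azx : a z x = p') (azx' : a z x' = q') (ayz : a y z = i + j)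
    (azy : a z y = i + j) (e1 : p + q = i + j) (e2 : p' + q' = i + j) (e3 : p + p' = 2 * i) :
    arbs S a = 6 * i * j * (i + j) := by
  have hq : (q : ℤ) = i + j - p := by omega
  have hp' : (p' : ℤ) = 2 * i - p := by omega
  have hq' : (q' : ℤ) = j - i + p := by omega
  obtain ⟨r, hr, hrl⟩ := exists_least S ⟨x, by rw [hS]; simp⟩
  have hr' := hr
  rw [hS] at hr
  simp only [mem_insert, mem_singleton] at hr
  rcases hr with rfl | rfl | rfl | rfl
  · obtain ⟨e, he0, he1, he2, he3⟩ := exists_equiv4 S r x' y z h1 h2 h3 h4 h5 h6 hS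
    rw [arbs4 S e (by rw [he0]; exact hrl), he0, he1, he2, he3, ax'x, ax'y, ax'z, ayx,
      ayx', ayz, azx, azx', azy]
    zify
    rw [hq, hp', hq']
    ring
  · obtain ⟨e, he0, he1, he2, he3⟩ := exists_equiv4 S r x y z h1.symm h4 h5 h2 h3 h6
      (by rw [hS]; ext v; simp; tauto)
    rw [arbs4 S e (by rw [he0]; exact hrl), he0, he1, he2, he3, axx', axy, axz, ayx,
      ayx', ayz, azx, azx', azy]
    zify
    rw [hq, hp', hq']
    ring
  · obtain ⟨e, he0, he1, he2, he3⟩ := exists_equiv4 S r x x' z h2.symm h4.symm h6 h1 h3 h5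
      (by rw [hS]; ext v; simp; tauto)
    rw [arbs4 S e (by rw [he0]; exact hrl), he0, he1, he2, he3, axx', axy, axz, ax'x, ax'y,
      ax'z, azx, azx', azy]
    zify
    rw [hp', hq']
    ring
  · obtain ⟨e, he0, he1, he2, he3⟩ := exists_equiv4 S r x x' y h3.symm h5.symm h6.symm h1 h2 h4
      (by rw [hS]; ext v; simp; tauto)
    rw [arbs4 S e (by rw [he0]; exact hrl), he0, he1, he2, he3, axx', axy, axz, ax'x, ax'y,
      ax'z, ayx, ayx', ayz]
    zify
    rw [hq]
    ring

end equivs

section values

variable {α : Type} [LinearOrder α] [Fintype α]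

omit [Fintype α] in
theorem deg_replicate (n : ℕ) (e : Finset α) (v : α) :
    deg (Multiset.replicate n e) v = if v ∈ e then n else 0 := by
  induction n with
  | zero => simp [deg]
  | succ n ih =>
    rw [Multiset.replicate_succ, deg_cons, ih]
    split_ifs <;> rfl

omit [Fintype α] in
theorem verts_replicate {n : ℕ} (hn : n ≠ 0) (e : Finset α) :
    verts (Multiset.replicate n e) = e := by
  ext v
  rw [mem_verts]
  simp [Multiset.mem_replicate, hn]

theorem rooting_of_compat {H : MHG α} {ρ : Fin (Multiset.card H) → α} (hρ : Monotone ρ)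
    {ε : Fin (Multiset.card H) → Finset α} (hε : Compat H ρ ε) :
    (fun i => (ε i, ρ i)) ∈ rootings H := by
  classical
  unfold rootings
  rw [mem_filter]
  exact ⟨mem_univ _, hε.1, hε.2, hρ⟩

theorem indeg_of_compat {H : MHG α} {ρ : Fin (Multiset.card H) → α} (hρ : Monotone ρ)
    (hρc : ∀ v, 3 * (univ.filter (fun i => ρ i = v)).card = deg H v)
    {ε : Fin (Multiset.card H) → Finset α} (hε : Compat H ρ ε) (v : α) :
    3 * indeg (fun i => (ε i, ρ i)) v = 2 * deg H v := by
  have h1 := deg_eq_of_rooting (rooting_of_compat hρ hε) v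
  have h2 := hρc v
  unfold rc at h1
  simp only at h1
  omega

omit [Fintype α] in
theorem isVeblen_one {m : ℕ} {e : Finset α} (he : e.card = 3) :
    IsVeblen 3 (Multiset.replicate (3 * m) e) := by
  refine ⟨fun e' he' => by rw [Multiset.eq_of_mem_replicate he']; exact he, fun v => ?_⟩
  rw [deg_replicate]
  split_ifs
  · exact dvd_mul_right 3 m
  · exact dvd_zero 3

/-- `C_H` for a single edge of multiplicity `3 m`. -/
theorem Cconn_one {x y z : α} (hxy : x ≠ y) (hxz : x ≠ z) (hyz : y ≠ z) {m : ℕ} (hm : 1 ≤ m) :
    Cconn (Multiset.replicate (3 * m) ({x, y, z} : Finset α)) = 3 / (8 * m) := by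
  classical
  set e : Finset α := {x, y, z} with he
  have hcard : e.card = 3 := by rw [he]; exact Finset.card_eq_three.2 ⟨x, y, z, hxy, hxz, hyz, rfl⟩
  set H : MHG α := Multiset.replicate (3 * m) e with hH
  have hV : IsVeblen 3 H := isVeblen_one hcard
  obtain ⟨ρ, hρ, hρc⟩ := exists_rho hV
  have hdeg : ∀ v ∈ e, deg H v = 3 * m := by
    intro v hv
    rw [hH, deg_replicate, if_pos hv]
  have hverts : verts H = e := verts_replicate (by omega) e
  have hall : ∀ ε, Compat H ρ ε → ∀ i, ε i = e := by
    intro ε hε i
    have h1 : ε i ∈ H := by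
      rw [← hε.1]
      exact Multiset.mem_map_of_mem _ (mem_univ i)
    exact Multiset.eq_of_mem_replicate h1
  have hfib : ∀ v ∈ e, (univ.filter (fun i => ρ i = v)).card = m := by
    intro v hv
    have h1 := hρc v
    rw [hdeg v hv] at h1
    omega
  have hρe : ∀ i, ρ i ∈ e := by
    intro i
    by_contra hcon
    have h1 := hρc (ρ i)
    have h0 : deg H (ρ i) = 0 := by
      generalize ρ i = v at hcon
      rw [hH, deg_replicate, if_neg hcon]
    rw [h0] at h1
    have h2 : 0 < (univ.filter (fun i' => ρ i' = ρ i)).card :=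
      Finset.card_pos.2 ⟨i, by simp⟩
    omega
  rw [Cconn_eq hV.1 ρ hρ hρc (3 / (8 * m))]
  · have h1 : (univ.filter (fun ε : Fin (Multiset.card H) → Finset α => Compat H ρ ε)) =
        {fun _ => e} := by
      ext ε
      rw [mem_filter, mem_singleton]
      constructor
      · rintro ⟨-, h⟩
        funext i
        exact hall ε h i
      · rintro rfl
        refine ⟨mem_univ _, ?_, hρe⟩
        rw [Multiset.map_const']
        rw [hH]
        congr 1
        simp
    rw [h1, Finset.card_singleton]
    push_cast
    ring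
  · intro ε hε
    have hin : ∀ v ∈ e, indeg (fun i => (ε i, ρ i)) v = 2 * m := by
      intro v hv
      have h1 := indeg_of_compat hρ hρc hε v
      rw [hdeg v hv] at h1
      omega
    have harc : ∀ u ∈ e, ∀ v ∈ e, u ≠ v → arc (fun i => (ε i, ρ i)) u v = m := by
      intro u hu v hv huv
      unfold arc
      rw [← hfib u hu]
      congr 1
      apply Finset.filter_congr
      intro i _
      simp only [hall ε hε i]
      exact ⟨fun h => h.1, fun h => ⟨h, hv, huv.symm⟩⟩
    rw [hverts, arbs_const3 e x y z hxy hxz hyz he _ m harc]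
    have hprod : ∏ v ∈ e, (indeg (fun i => (ε i, ρ i)) v : ℚ) = (2 * m) ^ 3 := by
      rw [Finset.prod_congr rfl (fun v hv => by rw [hin v hv]), Finset.prod_const, hcard]
      push_cast
      ring
    rw [hprod]
    have hm0 : (m : ℚ) ≠ 0 := by
      have : m ≠ 0 := by omega
      exact_mod_cast this
    push_cast
    field_simp
    ring

omit [Fintype α] in
theorem isVeblen_two {i j : ℕ} {e e' : Finset α} (he : e.card = 3) (he' : e'.card = 3) :
    IsVeblen 3 (Multiset.replicate (3 * i) e + Multiset.replicate (3 * j) e') :=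
  (isVeblen_one he).add (isVeblen_one he')

/-- Counting the edge sequences compatible with `ρ`. -/
theorem compat_count {n : ℕ} (e₁ e₂ : Finset α) (h12 : e₁ ≠ e₂) (x x' : α) (hxx' : x ≠ x')
    (hx : x ∈ e₁) (hx2 : x ∉ e₂) (hx' : x' ∈ e₂) (hx'1 : x' ∉ e₁) (i j : ℕ)
    (hrest : ∀ v, v ≠ x → v ≠ x' → v ∈ e₁ → v ∈ e₂) (hrest' : ∀ v, v ≠ x → v ≠ x' → v ∈ e₂ → v ∈ e₁)
    (ρ : Fin n → α) (hn : n = 3 * i + 3 * j) (hρ : ∀ t, ρ t ∈ e₁ ∪ e₂)
    (hρx : (univ.filter (fun t => ρ t = x)).card = i)
    (hρx' : (univ.filter (fun t => ρ t = x')).card = j) :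
    (univ.filter (fun ε : Fin n → Finset α => (univ.val.map ε = Multiset.replicate (3 * i) e₁ +
      Multiset.replicate (3 * j) e₂) ∧ ∀ t, ρ t ∈ ε t)).card = (2 * (i + j)).choose (2 * i) := by
  classical
  set M : Finset (Fin n) := univ.filter (fun t => ρ t ≠ x ∧ ρ t ≠ x') with hM
  have hMc : M.card = 2 * (i + j) := by
    have h1 : (univ : Finset (Fin n)).card = (univ.filter (fun t => ρ t = x)).card +
        ((univ.filter (fun t => ρ t = x')).card + M.card) := by
      rw [← Finset.card_union_of_disjoint, ← Finset.card_union_of_disjoint]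
      · congr 1
        ext t
        simp only [mem_univ, mem_union, mem_filter, true_and, hM, true_iff]
        tauto
      · rw [Finset.disjoint_left]
        intro t ht ht'
        rw [mem_filter] at ht
        rw [mem_union, mem_filter, hM, mem_filter] at ht'
        rcases ht' with h | h
        · exact hxx' (ht.2.symm.trans h.2)
        · exact h.2.1 ht.2
      · rw [Finset.disjoint_left]
        intro t ht ht'
        rw [mem_filter] at ht
        rw [hM, mem_filter] at ht'
        exact ht'.2.2 ht.2
    rw [hρx, hρx', Finset.card_univ, Fintype.card_fin] at h1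
    omega
  have hmapiff : ∀ ε : Fin n → Finset α, (univ.val.map ε = Multiset.replicate (3 * i) e₁ +
      Multiset.replicate (3 * j) e₂) ↔ ((∀ t, ε t = e₁ ∨ ε t = e₂) ∧
        (univ.filter (fun t => ε t = e₁)).card = 3 * i) := by
    intro ε
    constructor
    · intro h
      constructor
      · intro t
        have h1 : ε t ∈ (univ.val.map ε : Multiset (Finset α)) :=
          Multiset.mem_map_of_mem _ (mem_univ t)
        rw [h, Multiset.mem_add] at h1
        exact h1.imp Multiset.eq_of_mem_replicate Multiset.eq_of_mem_replicate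
      · have h1 : (univ.val.map ε : Multiset (Finset α)).count e₁ = 3 * i := by
          rw [h, Multiset.count_add, Multiset.count_replicate_self,
            Multiset.count_replicate, if_neg h12.symm, add_zero]
        rw [Multiset.count_map] at h1
        rw [← h1, Finset.card, Finset.filter_val]
        congr 1
        apply Multiset.filter_congr
        intro t _
        exact ⟨fun h => h.symm, fun h => h.symm⟩
    · rintro ⟨h1, h2⟩
      ext f
      rw [Multiset.count_add, Multiset.count_replicate, Multiset.count_replicate,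
        Multiset.count_map]
      have hc1 : Multiset.card (Multiset.filter (fun a => e₁ = ε a) univ.val) = 3 * i := by
        rw [← h2, Finset.card, Finset.filter_val]
        congr 1
        apply Multiset.filter_congr
        intro t _
        exact ⟨fun h => h.symm, fun h => h.symm⟩
      have hc2 : Multiset.card (Multiset.filter (fun a => e₂ = ε a) univ.val) = 3 * j := by
        have h3 : Multiset.card (Multiset.filter (fun a => e₂ = ε a) univ.val) =
            (univ.filter (fun t => ¬ ε t = e₁)).card := by
          rw [Finset.card, Finset.filter_val]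
          congr 1
          apply Multiset.filter_congr
          intro t _
          constructor
          · intro h h'; exact h12 (h'.symm.trans h.symm)
          · intro h; exact ((h1 t).resolve_left h).symm
        have h4 := Finset.card_filter_add_card_filter_not (s := (univ : Finset (Fin n)))
          (fun t => ε t = e₁)
        rw [Finset.card_univ, Fintype.card_fin, h2] at h4
        rw [h3]
        omega
      by_cases hf1 : f = e₁
      · subst hf1
        rw [hc1, if_pos rfl, if_neg h12.symm, add_zero]
      · by_cases hf2 : f = e₂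
        · subst hf2
          rw [hc2, if_pos rfl, if_neg h12, zero_add]
        · rw [if_neg (Ne.symm hf1), if_neg (Ne.symm hf2)]
          rw [Multiset.card_eq_zero, Multiset.filter_eq_nil]
          intro t _ h
          rcases h1 t with h3 | h3
          · exact hf1 (h.trans h3)
          · exact hf2 (h.trans h3)
  rw [← hMc, ← Finset.card_powersetCard (2 * i) M]
  -- the bijection
  have hpart : ∀ ε : Fin n → Finset α, (∀ t, ε t = e₁ ∨ ε t = e₂) → (∀ t, ρ t ∈ ε t) →
      (univ.filter (fun t => ε t = e₁)).card = i + (M.filter (fun t => ε t = e₁)).card := by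
    intro ε h1 h2
    rw [← hρx, ← Finset.card_union_of_disjoint]
    · congr 1
      ext t
      simp only [mem_filter, mem_univ, true_and, mem_union, hM]
      constructor
      · intro h
        by_cases h3 : ρ t = x
        · exact Or.inl h3
        · right
          refine ⟨⟨h3, ?_⟩, h⟩
          intro h4
          have := h2 t
          rw [h, h4] at this
          exact hx'1 this
      · rintro (h | h)
        · rcases h1 t with h3 | h3
          · exact h3
          · exfalso
            have := h2 t
            rw [h3, h] at this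
            exact hx2 this
        · exact h.2
    · rw [Finset.disjoint_left]
      intro t ht ht'
      rw [mem_filter] at ht ht'
      rw [hM, mem_filter] at ht'
      exact ht'.1.2.1 ht.2
  apply Finset.card_bij' (fun ε _ => M.filter (fun t => ε t = e₁))
    (fun A _ => fun t => if ρ t = x ∨ t ∈ A then e₁ else e₂)
  · intro ε hε
    rw [mem_filter, hmapiff] at hε
    obtain ⟨-, ⟨h1, h2⟩, h3⟩ := hε
    rw [mem_powersetCard]
    refine ⟨Finset.filter_subset _ _, ?_⟩
    have := hpart ε h1 h3
    omega
  · intro A hA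
    rw [mem_powersetCard] at hA
    obtain ⟨hA1, hA2⟩ := hA
    have h1 : ∀ t, (if ρ t = x ∨ t ∈ A then e₁ else e₂) = e₁ ∨
        (if ρ t = x ∨ t ∈ A then e₁ else e₂) = e₂ := by
      intro t; split_ifs <;> simp
    have h3 : ∀ t, ρ t ∈ (if ρ t = x ∨ t ∈ A then e₁ else e₂) := by
      intro t
      by_cases h4 : ρ t = x
      · rw [if_pos (Or.inl h4), h4]; exact hx
      · by_cases h5 : t ∈ A
        · rw [if_pos (Or.inr h5)]
          have h6 := hA1 h5
          rw [hM, mem_filter] at h6
          rcases mem_union.1 (hρ t) with h7 | h7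
          · exact h7
          · exact hrest' _ h6.2.1 h6.2.2 h7
        · rw [if_neg (by tauto)]
          by_cases h8 : ρ t = x'
          · rw [h8]; exact hx'
          · rcases mem_union.1 (hρ t) with h7 | h7
            · exact hrest _ h4 h8 h7
            · exact h7
    rw [mem_filter, hmapiff]
    refine ⟨mem_univ _, ⟨h1, ?_⟩, h3⟩
    rw [hpart _ h1 h3]
    have h6 : M.filter (fun t => (if ρ t = x ∨ t ∈ A then e₁ else e₂) = e₁) = A := by
      ext t
      rw [mem_filter]
      constructor
      · rintro ⟨h7, h8⟩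
        rw [hM, mem_filter] at h7
        by_contra h9
        rw [if_neg (by tauto)] at h8
        exact h12 h8.symm
      · intro h7
        exact ⟨hA1 h7, if_pos (Or.inr h7)⟩
    rw [h6, hA2]
    ring
  · intro ε hε
    rw [mem_filter, hmapiff] at hε
    obtain ⟨-, ⟨h1, h2⟩, h3⟩ := hε
    funext t
    by_cases h4 : ε t = e₁
    · rw [h4, if_pos]
      by_cases h5 : ρ t = x
      · exact Or.inl h5
      · right
        rw [mem_filter, hM, mem_filter]
        refine ⟨⟨mem_univ _, h5, ?_⟩, h4⟩
        intro h6
        have := h3 t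
        rw [h4, h6] at this
        exact hx'1 this
    · have h5 : ε t = e₂ := (h1 t).resolve_left h4
      rw [h5, if_neg]
      rintro (h6 | h6)
      · have := h3 t
        rw [h5, h6] at this
        exact hx2 this
      · rw [mem_filter] at h6
        exact h4 h6.2
  · intro A hA
    rw [mem_powersetCard] at hA
    obtain ⟨hA1, hA2⟩ := hA
    ext t
    rw [mem_filter]
    constructor
    · rintro ⟨h7, h8⟩
      rw [hM, mem_filter] at h7
      by_contra h9
      simp only [] at h8
      rw [if_neg (by tauto)] at h8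
      exact h12 h8.symm
    · intro h7
      exact ⟨hA1 h7, if_pos (Or.inr h7)⟩

/-- `C_H` for two edges `{x,y,z}`, `{x',y,z}` of multiplicities `3 i`, `3 j`. -/
theorem Cconn_two {x x' y z : α} (h1 : x ≠ x') (h2 : x ≠ y) (h3 : x ≠ z) (h4 : x' ≠ y)
    (h5 : x' ≠ z) (h6 : y ≠ z) {i j : ℕ} (hi : 1 ≤ i) (hj : 1 ≤ j) :
    Cconn (Multiset.replicate (3 * i) ({x, y, z} : Finset α) +
      Multiset.replicate (3 * j) ({x', y, z} : Finset α)) =
      ((2 * (i + j)).choose (2 * i) : ℚ) * (3 / (8 * (i + j))) := by
  classical
  set e₁ : Finset α := {x, y, z} with he₁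
  set e₂ : Finset α := {x', y, z} with he₂
  have hc₁ : e₁.card = 3 := Finset.card_eq_three.2 ⟨x, y, z, h2, h3, h6, rfl⟩
  have hc₂ : e₂.card = 3 := Finset.card_eq_three.2 ⟨x', y, z, h4, h5, h6, rfl⟩
  set H : MHG α := Multiset.replicate (3 * i) e₁ + Multiset.replicate (3 * j) e₂ with hH
  have hV : IsVeblen 3 H := isVeblen_two hc₁ hc₂
  obtain ⟨ρ, hρ, hρc⟩ := exists_rho hV
  have hx1 : x ∈ e₁ := by simp [he₁]
  have hx2 : x ∉ e₂ := by simp [he₂, h1, h2, h3]
  have hx'1 : x' ∉ e₁ := by simp [he₁, h1.symm, h4, h5]
  have hx'2 : x' ∈ e₂ := by simp [he₂]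
  have hy1 : y ∈ e₁ := by simp [he₁]
  have hy2 : y ∈ e₂ := by simp [he₂]
  have hz1 : z ∈ e₁ := by simp [he₁]
  have hz2 : z ∈ e₂ := by simp [he₂]
  have h12 : e₁ ≠ e₂ := fun h => hx2 (h ▸ hx1)
  have hdeg : ∀ v, deg H v = (if v ∈ e₁ then 3 * i else 0) + if v ∈ e₂ then 3 * j else 0 := by
    intro v
    rw [hH, deg_add, deg_replicate, deg_replicate]
  have hdx : deg H x = 3 * i := by rw [hdeg, if_pos hx1, if_neg hx2, add_zero]
  have hdx' : deg H x' = 3 * j := by rw [hdeg, if_neg hx'1, if_pos hx'2, zero_add]
  have hdy : deg H y = 3 * (i + j) := by rw [hdeg, if_pos hy1, if_pos hy2]; ring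
  have hdz : deg H z = 3 * (i + j) := by rw [hdeg, if_pos hz1, if_pos hz2]; ring
  have hverts : verts H = {x, x', y, z} := by
    rw [hH, verts_add, verts_replicate (by omega), verts_replicate (by omega)]
    ext v
    simp only [he₁, he₂, mem_union, mem_insert, mem_singleton]
    tauto
  have hfx : (univ.filter (fun t => ρ t = x)).card = i := by
    have := hρc x; rw [hdx] at this; omega
  have hfx' : (univ.filter (fun t => ρ t = x')).card = j := by
    have := hρc x'; rw [hdx'] at this; omega
  have hfy : (univ.filter (fun t => ρ t = y)).card = i + j := by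
    have := hρc y; rw [hdy] at this; omega
  have hfz : (univ.filter (fun t => ρ t = z)).card = i + j := by
    have := hρc z; rw [hdz] at this; omega
  have hρe : ∀ t, ρ t ∈ e₁ ∪ e₂ := by
    intro t
    by_contra hcon
    have h7 := hρc (ρ t)
    have h8 : deg H (ρ t) = 0 := by
      generalize ρ t = v at hcon
      rw [mem_union, not_or] at hcon
      rw [hdeg, if_neg hcon.1, if_neg hcon.2]
    rw [h8] at h7
    have h9 : 0 < (univ.filter (fun i' => ρ i' = ρ t)).card :=
      Finset.card_pos.2 ⟨t, by simp⟩
    omega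
  have hcardH : Multiset.card H = 3 * i + 3 * j := by
    rw [hH, Multiset.card_add, Multiset.card_replicate, Multiset.card_replicate]
  rw [Cconn_eq hV.1 ρ hρ hρc (3 / (8 * (i + j)))]
  · congr 2
    have h7 := compat_count e₁ e₂ h12 x x' h1 hx1 hx2 hx'2 hx'1 i j
      (by
        intro v hv hv' hve
        simp only [he₁, mem_insert, mem_singleton] at hve
        simp only [he₂, mem_insert, mem_singleton]
        tauto)
      (by
        intro v hv hv' hve
        simp only [he₂, mem_insert, mem_singleton] at hve
        simp only [he₁, mem_insert, mem_singleton]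
        tauto) ρ hcardH hρe hfx hfx'
    rw [← h7]
    congr 1
    ext ε
    rw [mem_filter, mem_filter]
    rfl
  · intro ε hε
    have hε12 : ∀ t, ε t = e₁ ∨ ε t = e₂ := by
      intro t
      have h7 : ε t ∈ H := by
        have := hε.1
        rw [← this]
        exact Multiset.mem_map_of_mem _ (mem_univ t)
      rw [hH, Multiset.mem_add] at h7
      exact h7.imp Multiset.eq_of_mem_replicate Multiset.eq_of_mem_replicate
    -- numbers of stars
    let cnt : Finset α → α → ℕ := fun e u => (univ.filter (fun t => ε t = e ∧ ρ t = u)).card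
    have hcnt : ∀ u, cnt e₁ u + cnt e₂ u = (univ.filter (fun t => ρ t = u)).card := by
      intro u
      simp only [cnt]
      rw [← Finset.card_union_of_disjoint]
      · congr 1
        ext t
        simp only [mem_union, mem_filter, mem_univ, true_and]
        have := hε12 t
        tauto
      · rw [Finset.disjoint_left]
        intro t ht ht'
        rw [mem_filter] at ht ht'
        exact h12 (ht.2.1.symm.trans ht'.2.1)
    have hcx : cnt e₂ x = 0 := by
      simp only [cnt]
      rw [Finset.card_eq_zero, Finset.filter_eq_empty_iff]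
      rintro t - ⟨h7, h8⟩
      have := hε.2 t
      rw [h7, h8] at this
      exact hx2 this
    have hcx' : cnt e₁ x' = 0 := by
      simp only [cnt]
      rw [Finset.card_eq_zero, Finset.filter_eq_empty_iff]
      rintro t - ⟨h7, h8⟩
      have := hε.2 t
      rw [h7, h8] at this
      exact hx'1 this
    have hsum1 : cnt e₁ x + cnt e₁ y + cnt e₁ z = 3 * i := by
      have h7 : (univ.filter (fun t => ε t = e₁)).card = 3 * i := by
        have h8 : (univ.val.map ε : Multiset (Finset α)).count e₁ = 3 * i := by
          rw [hε.1, hH, Multiset.count_add, Multiset.count_replicate_self,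
            Multiset.count_replicate, if_neg h12.symm, add_zero]
        rw [Multiset.count_map] at h8
        rw [← h8, Finset.card, Finset.filter_val]
        congr 1
        apply Multiset.filter_congr
        intro t _
        exact ⟨fun h => h.symm, fun h => h.symm⟩
      rw [← h7]
      simp only [cnt]
      rw [← Finset.card_union_of_disjoint, ← Finset.card_union_of_disjoint]
      · congr 1
        ext t
        simp only [mem_union, mem_filter, mem_univ, true_and]
        constructor
        · rintro ((h | h) | h) <;> exact h.1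
        · intro h
          have h8 := hε.2 t
          rw [h, he₁] at h8
          simp only [mem_insert, mem_singleton] at h8
          tauto
      · rw [Finset.disjoint_left]
        intro t ht ht'
        rw [mem_union, mem_filter, mem_filter] at ht
        rw [mem_filter] at ht'
        rcases ht with ht | ht
        · exact h3 (ht.2.2.symm.trans ht'.2.2)
        · exact h6 (ht.2.2.symm.trans ht'.2.2)
      · rw [Finset.disjoint_left]
        intro t ht ht'
        rw [mem_filter] at ht ht'
        exact h2 (ht.2.2.symm.trans ht'.2.2)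
    have harc : ∀ u v, u ≠ v → arc (fun t => (ε t, ρ t)) u v =
        (if v ∈ e₁ then cnt e₁ u else 0) + if v ∈ e₂ then cnt e₂ u else 0 := by
      intro u v huv
      unfold arc
      have h7 : (univ.filter (fun t => ρ t = u ∧ v ∈ ε t ∧ v ≠ u)) =
          (if v ∈ e₁ then univ.filter (fun t => ε t = e₁ ∧ ρ t = u) else ∅) ∪
          (if v ∈ e₂ then univ.filter (fun t => ε t = e₂ ∧ ρ t = u) else ∅) := by
        ext t
        have h8 := hε12 t
        by_cases hv1 : v ∈ e₁ <;> by_cases hv2 : v ∈ e₂ <;>
          simp only [hv1, hv2, if_true, if_false, mem_union, mem_filter, mem_univ, true_and,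
            notMem_empty, or_false, false_or] <;>
          rcases h8 with h8 | h8 <;> simp [h8, hv1, hv2, huv.symm, h12, h12.symm]
      simp only [cnt]
      rw [h7, Finset.card_union_of_disjoint]
      · congr 1 <;> split_ifs <;> simp
      · rw [Finset.disjoint_left]
        intro t ht ht'
        split_ifs at ht ht' <;> simp at ht ht'
        exact h12 (ht.1.symm.trans ht'.1)
    have ex := hcnt x
    have ex' := hcnt x'
    have ey := hcnt y
    have ez := hcnt z
    rw [hfx] at ex
    rw [hfx'] at ex'
    rw [hfy] at ey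
    rw [hfz] at ez
    have hin : ∀ v, 3 * indeg (fun t => (ε t, ρ t)) v = 2 * deg H v :=
      fun v => indeg_of_compat hρ hρc hε v
    have hix : indeg (fun t => (ε t, ρ t)) x = 2 * i := by
      have := hin x; rw [hdx] at this; omega
    have hix' : indeg (fun t => (ε t, ρ t)) x' = 2 * j := by
      have := hin x'; rw [hdx'] at this; omega
    have hiy : indeg (fun t => (ε t, ρ t)) y = 2 * (i + j) := by
      have := hin y; rw [hdy] at this; omega
    have hiz : indeg (fun t => (ε t, ρ t)) z = 2 * (i + j) := by
      have := hin z; rw [hdz] at this; omega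
    have harbs := arbs_two (verts H) x x' y z h1 h2 h3 h4 h5 h6 hverts
      (arc (fun t => (ε t, ρ t))) i j (cnt e₁ y) (cnt e₂ y) (cnt e₁ z) (cnt e₂ z)
      (by rw [harc _ _ h1, if_neg hx'1, if_pos hx'2, hcx])
      (by rw [harc _ _ h1.symm, if_pos hx1, if_neg hx2, hcx'])
      (by rw [harc _ _ h2, if_pos hy1, if_pos hy2]; omega)
      (by rw [harc _ _ h3, if_pos hz1, if_pos hz2]; omega)
      (by rw [harc _ _ h4, if_pos hy1, if_pos hy2]; omega)
      (by rw [harc _ _ h5, if_pos hz1, if_pos hz2]; omega)
      (by rw [harc _ _ h2.symm, if_pos hx1, if_neg hx2, add_zero])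
      (by rw [harc _ _ h4.symm, if_neg hx'1, if_pos hx'2, zero_add])
      (by rw [harc _ _ h3.symm, if_pos hx1, if_neg hx2, add_zero])
      (by rw [harc _ _ h5.symm, if_neg hx'1, if_pos hx'2, zero_add])
      (by rw [harc _ _ h6, if_pos hz1, if_pos hz2]; omega)
      (by rw [harc _ _ h6.symm, if_pos hy1, if_pos hy2]; omega)
      ey ez (by omega)
    rw [harbs, hverts, Finset.prod_insert (by simp [h1, h2, h3]),
      Finset.prod_insert (by simp [h4, h5]), Finset.prod_pair h6, hix, hix', hiy, hiz]
    have hi0 : (i : ℚ) ≠ 0 := by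
      have : i ≠ 0 := by omega
      exact_mod_cast this
    have hj0 : (j : ℚ) ≠ 0 := by
      have : j ≠ 0 := by omega
      exact_mod_cast this
    have hij0 : (i : ℚ) + j ≠ 0 := by
      have : i + j ≠ 0 := by omega
      exact_mod_cast this
    push_cast
    field_simp
    ring

end values

end Pool.Agent.Veblen
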