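import Pool.Agent.Veblen.Aut

set_option autoImplicit false

namespace Pool.Agent.Veblen

open Finset

/-- one edge `{0,1,2}` -/
def H0 : KGraph 3 where
  V := {0, 1, 2}
  E := {{0, 1, 2}}
  edge_sub := by decide
  edge_card := by decide

/-- two edges `{0,1,2}`, `{0,1,3}` -/
def G0 : KGraph 3 where
  V := {0, 1, 2, 3}
  E := {{0, 1, 2}, {0, 1, 3}}
  edge_sub := by decide
  edge_card := by decide

theorem iso_card {α β : Type} [DecidableEq α] [DecidableEq β] {H : MHG α} {H' : MHG β}
    (h : Iso H H') : Multiset.card H = Multiset.card H' := by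
  obtain ⟨f, -, rfl⟩ := h
  rw [Multiset.card_map]

section

variable {α : Type} [DecidableEq α]

theorem iso_a {x y z : α} (h2 : x ≠ y) (h3 : x ≠ z) (h6 : y ≠ z) :
    Iso (({{0, 1, 2}} : Finset (Finset ℕ)).val) ({{x, y, z}} : MHG α) := by
  refine ⟨fun n => if n = 0 then x else if n = 1 then y else z, ?_, ?_⟩
  · intro a ha b hb hab
    have hv : verts (({{0, 1, 2}} : Finset (Finset ℕ)).val) = {0, 1, 2} := verts_singleton _
    rw [hv] at ha hb
    simp only [Finset.coe_insert, Finset.coe_singleton, Set.mem_insert_iff,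
      Set.mem_singleton_iff] at ha hb
    rcases ha with rfl | rfl | rfl <;> rcases hb with rfl | rfl | rfl <;>
      simp_all [Ne.symm]
  · rw [Finset.singleton_val, Multiset.map_singleton]
    congr 1
    rw [Finset.image_insert, Finset.image_insert, Finset.image_singleton]
    simp

theorem iso_b {x y z : α} (h2 : x ≠ y) (h3 : x ≠ z) (h6 : y ≠ z) :
    Iso (({{0, 1, 3}} : Finset (Finset ℕ)).val) ({{x, y, z}} : MHG α) := by
  refine ⟨fun n => if n = 0 then x else if n = 1 then y else z, ?_, ?_⟩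
  · intro a ha b hb hab
    have hv : verts (({{0, 1, 3}} : Finset (Finset ℕ)).val) = {0, 1, 3} := verts_singleton _
    rw [hv] at ha hb
    simp only [Finset.coe_insert, Finset.coe_singleton, Set.mem_insert_iff,
      Set.mem_singleton_iff] at ha hb
    rcases ha with rfl | rfl | rfl <;> rcases hb with rfl | rfl | rfl <;>
      simp_all [Ne.symm]
  · rw [Finset.singleton_val, Multiset.map_singleton]
    congr 1
    rw [Finset.image_insert, Finset.image_insert, Finset.image_singleton]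
    simp

theorem val_ab : (({{0, 1, 2}, {0, 1, 3}} : Finset (Finset ℕ)).val) =
    ({{0, 1, 2}, {0, 1, 3}} : Multiset (Finset ℕ)) := by
  decide

theorem iso_ab {x x' y z : α} (h1 : x ≠ x') (h2 : x ≠ y) (h3 : x ≠ z)
    (h4 : x' ≠ y) (h5 : x' ≠ z) (h6 : y ≠ z) :
    Iso (({{0, 1, 2}, {0, 1, 3}} : Finset (Finset ℕ)).val)
      ({{x, y, z}, {x', y, z}} : MHG α) := by
  rw [val_ab]
  refine ⟨fun n => if n = 0 then y else if n = 1 then z else if n = 2 then x else x', ?_, ?_⟩
  · intro a ha b hb hab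
    rw [verts_pair] at ha hb
    have hv : ({0, 1, 2} ∪ {0, 1, 3} : Finset ℕ) = {0, 1, 2, 3} := by decide
    rw [hv] at ha hb
    simp only [Finset.coe_insert, Finset.coe_singleton, Set.mem_insert_iff,
      Set.mem_singleton_iff] at ha hb
    rcases ha with rfl | rfl | rfl | rfl <;> rcases hb with rfl | rfl | rfl | rfl <;>
      simp_all [Ne.symm]
  · rw [Multiset.insert_eq_cons, Multiset.map_cons, Multiset.map_singleton]
    have g1 : ({0, 1, 2} : Finset ℕ).image (fun n => if n = 0 then y else if n = 1 then z else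
        if n = 2 then x else x') = {x, y, z} := by
      rw [Finset.image_insert, Finset.image_insert, Finset.image_singleton]
      simp only [if_true, one_ne_zero, if_false, OfNat.ofNat_ne_zero, OfNat.ofNat_ne_one]
      ext v
      simp only [mem_insert, mem_singleton]
      tauto
    have g2 : ({0, 1, 3} : Finset ℕ).image (fun n => if n = 0 then y else if n = 1 then z else
        if n = 2 then x else x') = {x', y, z} := by
      rw [Finset.image_insert, Finset.image_insert, Finset.image_singleton]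
      simp only [if_true, one_ne_zero, if_false, OfNat.ofNat_ne_zero, OfNat.ofNat_ne_one,
        show ¬ (3 : ℕ) = 2 by decide]
      ext v
      simp only [mem_insert, mem_singleton]
      tauto
    rw [g1, g2, Multiset.insert_eq_cons]

theorem sub_H0 {S : Finset (Finset ℕ)} (h : S ⊆ H0.E) : S = ∅ ∨ S = {{0, 1, 2}} :=
  Finset.subset_singleton_iff.1 h

theorem sub_G0 {S : Finset (Finset ℕ)} (h : S ⊆ G0.E) :
    S = ∅ ∨ S = {{0, 1, 2}} ∨ S = {{0, 1, 3}} ∨ S = {{0, 1, 2}, {0, 1, 3}} := by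
  have h1 : S ∈ G0.E.powerset := mem_powerset.2 h
  have h2 : G0.E.powerset = {∅, {{0, 1, 2}}, {{0, 1, 3}}, {{0, 1, 2}, {0, 1, 3}}} := by
    decide
  rw [h2] at h1
  simpa using h1

theorem copies_H0_one (e : Finset α) (he : e.card = 3) : copies H0 ({e} : MHG α) = 1 := by
  classical
  obtain ⟨x, y, z, h2, h3, h6, rfl⟩ := Finset.card_eq_three.1 he
  unfold copies
  have h : (H0.E.powerset.filter fun S => Iso S.val ({{x, y, z}} : MHG α)) =
      {{{0, 1, 2}}} := by
    ext S
    rw [mem_filter, mem_powerset, mem_singleton]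
    constructor
    · rintro ⟨g1, g2⟩
      rcases sub_H0 g1 with rfl | rfl
      · have := iso_card g2
        simp at this
      · rfl
    · rintro rfl
      exact ⟨by decide, iso_a h2 h3 h6⟩
  rw [h, Finset.card_singleton]

theorem copies_H0_two (e e' : Finset α) : copies H0 ({e, e'} : MHG α) = 0 := by
  classical
  unfold copies
  rw [Finset.card_eq_zero, Finset.filter_eq_empty_iff]
  intro S hS g2
  rw [mem_powerset] at hS
  have := iso_card g2
  rcases sub_H0 hS with rfl | rfl
  · simp at this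
  · simp at this

theorem copies_G0_one (e : Finset α) (he : e.card = 3) : copies G0 ({e} : MHG α) = 2 := by
  classical
  obtain ⟨x, y, z, h2, h3, h6, rfl⟩ := Finset.card_eq_three.1 he
  unfold copies
  have h : (G0.E.powerset.filter fun S => Iso S.val ({{x, y, z}} : MHG α)) =
      {{{0, 1, 2}}, {{0, 1, 3}}} := by
    ext S
    rw [mem_filter, mem_powerset, mem_insert, mem_singleton]
    constructor
    · rintro ⟨g1, g2⟩
      rcases sub_G0 g1 with rfl | rfl | rfl | rfl
      · have := iso_card g2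
        simp at this
      · exact Or.inl rfl
      · exact Or.inr rfl
      · have := iso_card g2
        rw [val_ab] at this
        simp at this
    · rintro (rfl | rfl)
      · exact ⟨by decide, iso_a h2 h3 h6⟩
      · exact ⟨by decide, iso_b h2 h3 h6⟩
  rw [h]
  decide

theorem copies_G0_two {x x' y z : α} (h1 : x ≠ x') (h2 : x ≠ y) (h3 : x ≠ z)
    (h4 : x' ≠ y) (h5 : x' ≠ z) (h6 : y ≠ z) :
    copies G0 ({{x, y, z}, {x', y, z}} : MHG α) = 1 := by
  classical
  unfold copies
  have h : (G0.E.powerset.filter fun S => Iso S.val ({{x, y, z}, {x', y, z}} : MHG α)) =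
      {{{0, 1, 2}, {0, 1, 3}}} := by
    ext S
    rw [mem_filter, mem_powerset, mem_singleton]
    constructor
    · rintro ⟨g1, g2⟩
      have := iso_card g2
      rcases sub_G0 g1 with rfl | rfl | rfl | rfl
      · simp at this
      · simp at this
      · simp at this
      · rfl
    · rintro rfl
      exact ⟨by decide, iso_ab h1 h2 h3 h4 h5 h6⟩
  rw [h, Finset.card_singleton]

/-- The possible flattenings. -/
def Flat (F : MHG α) : Prop :=
  (∃ e : Finset α, e.card = 3 ∧ F = {e}) ∨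
  (∃ x x' y z : α, x ≠ x' ∧ x ≠ y ∧ x ≠ z ∧ x' ≠ y ∧ x' ≠ z ∧ y ≠ z ∧
    F = {{x, y, z}, {x', y, z}})

theorem flat_of_iso {S : Finset (Finset ℕ)} (hS : S ⊆ G0.E) {F : MHG α} (hF : F ≠ 0)
    (h : Iso S.val F) : Flat F := by
  obtain ⟨f, hf, rfl⟩ := h
  rcases sub_G0 hS with rfl | rfl | rfl | rfl
  · simp at hF
  · left
    refine ⟨({0, 1, 2} : Finset ℕ).image f, ?_, ?_⟩
    · rw [Finset.card_image_of_injOn]
      · rfl
      · have hv : verts (({{0, 1, 2}} : Finset (Finset ℕ)).val) = {0, 1, 2} := verts_singleton _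
        rw [hv] at hf
        exact hf
    · rw [Finset.singleton_val, Multiset.map_singleton]
  · left
    refine ⟨({0, 1, 3} : Finset ℕ).image f, ?_, ?_⟩
    · rw [Finset.card_image_of_injOn]
      · rfl
      · have hv : verts (({{0, 1, 3}} : Finset (Finset ℕ)).val) = {0, 1, 3} := verts_singleton _
        rw [hv] at hf
        exact hf
    · rw [Finset.singleton_val, Multiset.map_singleton]
  · right
    rw [val_ab, verts_pair] at hf
    have hv : ({0, 1, 2} ∪ {0, 1, 3} : Finset ℕ) = {0, 1, 2, 3} := by decide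
    rw [hv] at hf
    have hne : ∀ a ∈ ({0, 1, 2, 3} : Finset ℕ), ∀ b ∈ ({0, 1, 2, 3} : Finset ℕ), a ≠ b →
        f a ≠ f b := by
      intro a ha b hb hab h
      exact hab (hf (by exact_mod_cast ha) (by exact_mod_cast hb) h)
    refine ⟨f 2, f 3, f 0, f 1, hne _ (by decide) _ (by decide) (by decide),
      hne _ (by decide) _ (by decide) (by decide), hne _ (by decide) _ (by decide) (by decide),
      hne _ (by decide) _ (by decide) (by decide), hne _ (by decide) _ (by decide) (by decide),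
      hne _ (by decide) _ (by decide) (by decide), ?_⟩
    rw [val_ab, Multiset.insert_eq_cons, Multiset.map_cons, Multiset.map_singleton,
      Multiset.insert_eq_cons]
    congr 1
    · rw [Finset.image_insert, Finset.image_insert, Finset.image_singleton]
      ext v
      simp only [mem_insert, mem_singleton]
      tauto
    · rw [Finset.image_insert, Finset.image_insert, Finset.image_singleton]
      congr 1
      ext v
      simp only [mem_insert, mem_singleton]
      tauto

end

/-- What is used about the two hypergraphs. -/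
structure Good (𝓗 : KGraph 3) (c₁ c₂ : ℕ) : Prop where
  one : ∀ {N : ℕ} (e : Finset (Fin N)), e.card = 3 → copies 𝓗 ({e} : MHG (Fin N)) = c₁
  two : ∀ {N : ℕ} {x x' y z : Fin N}, x ≠ x' → x ≠ y → x ≠ z → x' ≠ y → x' ≠ z → y ≠ z →
    copies 𝓗 ({{x, y, z}, {x', y, z}} : MHG (Fin N)) = c₂
  sub : 𝓗.E ⊆ G0.E

theorem good_H0 : Good H0 1 0 where
  one := fun e he => copies_H0_one e he
  two := fun _ _ _ _ _ _ => copies_H0_two _ _
  sub := by decide

theorem good_G0 : Good G0 2 1 where
  one := fun e he => copies_G0_one e he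
  two := fun h1 h2 h3 h4 h5 h6 => copies_G0_two h1 h2 h3 h4 h5 h6
  sub := Finset.Subset.refl _


section wt

variable {N : ℕ}

/-- The weight of a component (for `k = 3`, `v = 4`). -/
noncomputable def wt (𝓗 : KGraph 3) (G : MHG (Fin N)) : ℚ :=
  -16 * Cconn G * ((autCard (Multiset.dedup G) : ℚ) * (copies 𝓗 (Multiset.dedup G) : ℚ))

/-- multiples of one edge -/
def T1 (G : MHG (Fin N)) : Prop :=
  ∃ (e : Finset (Fin N)) (m : ℕ), e.card = 3 ∧ 1 ≤ m ∧ G = Multiset.replicate (3 * m) e

/-- two edges meeting in two vertices -/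
def T2 (G : MHG (Fin N)) : Prop :=
  ∃ (x x' y z : Fin N) (i j : ℕ), x ≠ x' ∧ x ≠ y ∧ x ≠ z ∧ x' ≠ y ∧ x' ≠ z ∧ y ≠ z ∧
    1 ≤ i ∧ 1 ≤ j ∧
    G = Multiset.replicate (3 * i) {x, y, z} + Multiset.replicate (3 * j) {x', y, z}

theorem wt_one {𝓗 : KGraph 3} {c₁ c₂ : ℕ} (h𝓗 : Good 𝓗 c₁ c₂) (e : Finset (Fin N))
    (he : e.card = 3) {m : ℕ} (hm : 1 ≤ m) :
    wt 𝓗 (Multiset.replicate (3 * m) e) = -36 * c₁ / m := by
  unfold wt
  rw [dedup_one (by omega), autCard_one, h𝓗.one e he, he]
  obtain ⟨x, y, z, h2, h3, h6, rfl⟩ := Finset.card_eq_three.1 he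
  rw [Cconn_one h2 h3 h6 hm]
  have hm0 : (m : ℚ) ≠ 0 := by
    have : m ≠ 0 := by omega
    exact_mod_cast this
  have h3 : (Nat.factorial 3 : ℚ) = 6 := by norm_num [Nat.factorial]
  rw [h3]
  field_simp
  ring

theorem wt_two {𝓗 : KGraph 3} {c₁ c₂ : ℕ} (h𝓗 : Good 𝓗 c₁ c₂) {x x' y z : Fin N}
    (h1 : x ≠ x') (h2 : x ≠ y) (h3 : x ≠ z) (h4 : x' ≠ y) (h5 : x' ≠ z) (h6 : y ≠ z)
    {i j : ℕ} (hi : 1 ≤ i) (hj : 1 ≤ j) :
    wt 𝓗 (Multiset.replicate (3 * i) {x, y, z} + Multiset.replicate (3 * j) {x', y, z}) =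
      -24 * c₂ * ((2 * (i + j)).choose (2 * i) : ℚ) / (i + j) := by
  have hne : ({x, y, z} : Finset (Fin N)) ≠ {x', y, z} := by
    intro h
    have : x ∈ ({x', y, z} : Finset (Fin N)) := by rw [← h]; simp
    simp only [mem_insert, mem_singleton] at this
    tauto
  unfold wt
  rw [dedup_two (by omega) (by omega) hne, autCard_two h1 h2 h3 h4 h5 h6,
    h𝓗.two h1 h2 h3 h4 h5 h6, Cconn_two h1 h2 h3 h4 h5 h6 hi hj]
  have hm0 : (i : ℚ) + j ≠ 0 := by
    have : i + j ≠ 0 := by omega
    exact_mod_cast this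
  push_cast
  field_simp
  ring

/-- Classification of the components of nonzero weight. -/
theorem type_of_wt {𝓗 : KGraph 3} {c₁ c₂ : ℕ} (h𝓗 : Good 𝓗 c₁ c₂) {G : MHG (Fin N)}
    (hG : IsVeblen 3 G) (h0 : G ≠ 0) (hw : wt 𝓗 G ≠ 0) : T1 G ∨ T2 G := by
  classical
  have hc : copies 𝓗 (Multiset.dedup G) ≠ 0 := by
    intro h
    apply hw
    unfold wt
    rw [h]
    simp
  unfold copies at hc
  obtain ⟨S, hS⟩ := Finset.card_pos.1 (Nat.pos_of_ne_zero hc)
  rw [mem_filter, mem_powerset] at hS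
  have hd0 : Multiset.dedup G ≠ 0 := by
    intro h
    exact h0 (Multiset.dedup_eq_zero.1 h)
  rcases flat_of_iso (hS.1.trans h𝓗.sub) hd0 hS.2 with ⟨e, he, hF⟩ |
    ⟨x, x', y, z, h1, h2, h3, h4, h5, h6, hF⟩
  · left
    have hG' : G = Multiset.replicate (Multiset.card G) e := by
      rw [Multiset.eq_replicate]
      refine ⟨rfl, fun b hb => ?_⟩
      rw [← Multiset.mem_dedup, hF, Multiset.mem_singleton] at hb
      exact hb
    have hdvd : 3 ∣ Multiset.card G := by
      obtain ⟨v, hv⟩ : e.Nonempty := by rw [← Finset.card_pos, he]; norm_num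
      have h7 := hG.2 v
      rw [hG', deg_replicate, if_pos hv] at h7
      exact h7
    obtain ⟨m, hm⟩ := hdvd
    refine ⟨e, m, he, ?_, by rw [← hm]; exact hG'⟩
    have : 0 < Multiset.card G := Multiset.card_pos.2 h0
    omega
  · right
    have hne : ({x, y, z} : Finset (Fin N)) ≠ {x', y, z} := by
      intro h
      have : x ∈ ({x', y, z} : Finset (Fin N)) := by rw [← h]; simp
      simp only [mem_insert, mem_singleton] at this
      tauto
    have hmem : ∀ b, b ∈ G ↔ b = {x, y, z} ∨ b = {x', y, z} := by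
      intro b
      rw [← Multiset.mem_dedup, hF]
      simp
    have hG' : G = Multiset.replicate (G.count {x, y, z}) {x, y, z} +
        Multiset.replicate (G.count {x', y, z}) {x', y, z} := by
      ext b
      rw [Multiset.count_add, Multiset.count_replicate, Multiset.count_replicate]
      by_cases hb1 : {x, y, z} = b
      · subst hb1
        rw [if_pos rfl, if_neg hne.symm, add_zero]
      · by_cases hb2 : {x', y, z} = b
        · subst hb2
          rw [if_pos rfl, if_neg hne, zero_add]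
        · rw [if_neg hb1, if_neg hb2, Multiset.count_eq_zero, hmem]
          rintro (h | h)
          · exact hb1 h.symm
          · exact hb2 h.symm
    have hp1 : 0 < G.count {x, y, z} := Multiset.count_pos.2 ((hmem _).2 (Or.inl rfl))
    have hp2 : 0 < G.count {x', y, z} := Multiset.count_pos.2 ((hmem _).2 (Or.inr rfl))
    have hd1 : 3 ∣ G.count {x, y, z} := by
      have h7 := hG.2 x
      rw [hG', deg_add, deg_replicate, deg_replicate, if_pos (by simp),
        if_neg (by simp [h1, h2, h3]), add_zero] at h7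
      exact h7
    have hd2 : 3 ∣ G.count {x', y, z} := by
      have h7 := hG.2 x'
      rw [hG', deg_add, deg_replicate, deg_replicate, if_neg (by simp [h1.symm, h4, h5]),
        if_pos (by simp), zero_add] at h7
      exact h7
    obtain ⟨i, hi⟩ := hd1
    obtain ⟨j, hj⟩ := hd2
    refine ⟨x, x', y, z, i, j, h1, h2, h3, h4, h5, h6, by omega, by omega, ?_⟩
    rw [← hi, ← hj]
    exact hG'

theorem relabel_replicate (σ : Equiv.Perm (Fin N)) (n : ℕ) (e : Finset (Fin N)) :
    relabel σ (Multiset.replicate n e) = Multiset.replicate n (e.image σ) := by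
  unfold relabel
  rw [Multiset.map_replicate]

theorem wt_relabel_of_type {𝓗 : KGraph 3} {c₁ c₂ : ℕ} (h𝓗 : Good 𝓗 c₁ c₂) {G : MHG (Fin N)}
    (σ : Equiv.Perm (Fin N)) (h : T1 G ∨ T2 G) : wt 𝓗 (relabel σ G) = wt 𝓗 G := by
  rcases h with ⟨e, m, he, hm, rfl⟩ | ⟨x, x', y, z, i, j, h1, h2, h3, h4, h5, h6, hi, hj, rfl⟩
  · rw [relabel_replicate, wt_one h𝓗 _ he hm, wt_one h𝓗 _ _ hm]
    rw [Finset.card_image_of_injective _ σ.injective, he]
  · rw [relabel_add, relabel_replicate, relabel_replicate, image_triple, image_triple,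
      wt_two h𝓗 h1 h2 h3 h4 h5 h6 hi hj,
      wt_two h𝓗 (σ.injective.ne h1) (σ.injective.ne h2) (σ.injective.ne h3)
        (σ.injective.ne h4) (σ.injective.ne h5) (σ.injective.ne h6) hi hj]

theorem wt_relabel {𝓗 : KGraph 3} {c₁ c₂ : ℕ} (h𝓗 : Good 𝓗 c₁ c₂) {G : MHG (Fin N)}
    (hG : IsVeblen 3 G) (h0 : G ≠ 0) (σ : Equiv.Perm (Fin N)) :
    wt 𝓗 (relabel σ G) = wt 𝓗 G := by
  by_cases h1 : wt 𝓗 G = 0
  · by_cases h2 : wt 𝓗 (relabel σ G) = 0
    · rw [h1, h2]
    · have h3 : relabel σ G ≠ 0 := by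
        intro h
        apply h0
        rw [← relabel_inv_relabel σ G, h, relabel_zero]
      have h4 := wt_relabel_of_type h𝓗 σ⁻¹ (type_of_wt h𝓗 (hG.relabel σ) h3 h2)
      rw [relabel_inv_relabel] at h4
      exact h4.symm
  · exact wt_relabel_of_type h𝓗 σ (type_of_wt h𝓗 hG h0 h1)

theorem prod_relabel {𝓗 : KGraph 3} {c₁ c₂ : ℕ} (h𝓗 : Good 𝓗 c₁ c₂) {H : MHG (Fin N)}
    (hH : IsVeblen 3 H) (σ : Equiv.Perm (Fin N)) :
    ∏ G ∈ comps (relabel σ H), wt 𝓗 G = ∏ G ∈ comps H, wt 𝓗 G := by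
  classical
  rw [comps_relabel, Finset.prod_image (fun a _ b _ h => relabel_injective σ h)]
  apply Finset.prod_congr rfl
  intro G hG
  obtain ⟨h1, h2, h3⟩ := mem_comps.1 hG
  apply wt_relabel h𝓗 _ h2.1
  have h4 : G + (H - G) = H := add_tsub_cancel_of_le h1
  rw [← h4] at hH
  exact hH.of_add_left h3

theorem summand_eq (𝓗 : KGraph 3) (H : MHG (Fin N)) :
    summand 4 𝓗 H = (∏ G ∈ comps H, wt 𝓗 G) / (autCard H : ℚ) := by
  unfold summand numSub wt
  have h1 : (-(((3 : ℕ) : ℚ) - 1) ^ 4) = -16 := by norm_num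
  have h2 : ∏ G ∈ comps H, (-16 * Cconn G * ((autCard (Multiset.dedup G) : ℚ) *
      (copies 𝓗 (Multiset.dedup G) : ℚ))) = (-16) ^ (comps H).card *
      (∏ G ∈ comps H, Cconn G) * ∏ G ∈ comps H, ((autCard (Multiset.dedup G) : ℚ) *
      (copies 𝓗 (Multiset.dedup G) : ℚ)) := by
    rw [Finset.prod_mul_distrib, Finset.prod_mul_distrib, Finset.prod_const]
  rw [h1, h2]
  ring

theorem summand_eq_zero (𝓗 : KGraph 3) (H : MHG (Fin N))
    (h : ¬ ∀ G ∈ comps H, ∃ S ⊆ 𝓗.E, Iso S.val (Multiset.dedup G)) : summand 4 𝓗 H = 0 := by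
  classical
  push Not at h
  obtain ⟨G, hG, hS⟩ := h
  rw [summand_eq]
  have h1 : wt 𝓗 G = 0 := by
    have h2 : copies 𝓗 (Multiset.dedup G) = 0 := by
      unfold copies
      rw [Finset.card_eq_zero, Finset.filter_eq_empty_iff]
      intro S hS' h3
      exact hS S (mem_powerset.1 hS') h3
    unfold wt
    rw [h2]
    simp
  rw [Finset.prod_eq_zero hG h1, zero_div]

theorem coeffSum_eq {𝓗 : KGraph 3} {c₁ c₂ : ℕ} (h𝓗 : Good 𝓗 c₁ c₂) (d : ℕ) :
    coeffSum 4 d 𝓗 = ∑ n ∈ range (3 * d + 1),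
      Asum 3 (wt 𝓗) (univ : Finset (Fin n)) d / (n.factorial : ℚ) := by
  classical
  unfold coeffSum
  apply Finset.sum_congr rfl
  intro n _
  unfold Asum
  rw [← class_sum (fun H => ∏ G ∈ comps H, wt 𝓗 G)]
  · apply Finset.sum_congr rfl
    intro q _
    split_ifs with h
    · exact summand_eq 𝓗 _
    · rw [← summand_eq 𝓗 _]
      exact (summand_eq_zero 𝓗 _ h).symm
  · intro σ x
    exact prod_relabel h𝓗 x.2.1 σ

end wt

end Pool.Agent.Veblen
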